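import Pool.Agent.H698R3.HsLin
import Pool.Agent.H698R3.HsRep
import Pool.Agent.H698R4.FxHs3

set_option autoImplicit false
set_option linter.unusedSectionVars false

/-! Ranks of commutators with projections, compressions. -/

namespace Pool.Agent.H698R5

open Matrix WithLp Pool.Agent.H698R3 Pool.Agent.H698R3.Amalg Pool.Agent.H698R4

section rank

variable {X Y : Type} [Fintype X] [Fintype Y] [DecidableEq X] [DecidableEq Y]

theorem rk_add (A B : Matrix X Y ℂ) : (A + B).rank ≤ A.rank + B.rank := by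
  unfold Matrix.rank
  have h : LinearMap.range (A + B).mulVecLin ≤ LinearMap.range A.mulVecLin ⊔
      LinearMap.range B.mulVecLin := by
    rintro _ ⟨v, rfl⟩
    rw [Matrix.mulVecLin_add, LinearMap.add_apply]
    exact Submodule.add_mem_sup ⟨v, rfl⟩ ⟨v, rfl⟩
  exact (Submodule.finrank_mono h).trans (Submodule.finrank_add_le_finrank_add_finrank _ _)

theorem rk_neg (A : Matrix X Y ℂ) : (-A).rank = A.rank := by
  have h : ∀ B : Matrix X Y ℂ, (-B).rank ≤ B.rank := by
    intro B
    have h1 : -B = (-1 : Matrix X X ℂ) * B := by rw [Matrix.neg_mul, Matrix.one_mul]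
    rw [h1]
    exact Matrix.rank_mul_le_right _ _
  refine le_antisymm (h A) ?_
  have := h (-A)
  rwa [neg_neg] at this

theorem rk_sub (A B : Matrix X Y ℂ) : (A - B).rank ≤ A.rank + B.rank := by
  rw [sub_eq_add_neg]
  refine (rk_add _ _).trans ?_
  rw [rk_neg]

theorem rk_zero : (0 : Matrix X Y ℂ).rank = 0 := Matrix.rank_zero

theorem rk_sum {ι : Type} (s : Finset ι) (A : ι → Matrix X Y ℂ) :
    (∑ i ∈ s, A i).rank ≤ ∑ i ∈ s, (A i).rank := by
  classical
  induction s using Finset.induction_on with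
  | empty => simp
  | insert a s ha ih =>
    rw [Finset.sum_insert ha, Finset.sum_insert ha]
    exact (rk_add _ _).trans (Nat.add_le_add_left ih _)

/-- commutator rank -/
theorem rk_comm (U P : Matrix X X ℂ) (r : ℕ) (h1 : ((1 - P) * U * P).rank ≤ r)
    (h2 : (P * U * (1 - P)).rank ≤ r) : (U * P - P * U).rank ≤ 2 * r := by
  have : U * P - P * U = (1 - P) * U * P - P * U * (1 - P) := by
    simp only [Matrix.sub_mul, Matrix.mul_sub, Matrix.one_mul, Matrix.mul_one]
    abel
  rw [this]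
  refine (rk_sub _ _).trans ?_
  omega

theorem rk_off (U P : Matrix X X ℂ) (hP : P * P = P) :
    ((1 - P) * U * P).rank ≤ (U * P - P * U).rank := by
  have : (1 - P) * U * P = (1 - P) * (U * P - P * U) := by
    simp only [Matrix.sub_mul, Matrix.mul_sub, Matrix.one_mul, Matrix.mul_assoc]
    rw [← Matrix.mul_assoc P P U, hP]
    abel
  rw [this]
  exact Matrix.rank_mul_le_right _ _

end rank

section comp

variable {X Y : Type} [Fintype X] [Fintype Y] [DecidableEq X] [DecidableEq Y]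

theorem rank_eq_toEuclideanLin (A : Matrix X Y ℂ) :
    A.rank = Module.finrank ℂ (LinearMap.range (toEuclideanLin A)) := by
  unfold Matrix.rank
  have h : LinearMap.range (toEuclideanLin A) =
      (LinearMap.range A.mulVecLin).map (WithLp.linearEquiv 2 ℂ (X → ℂ)).symm.toLinearMap := by
    ext x
    constructor
    · rintro ⟨v, rfl⟩
      exact ⟨A *ᵥ (ofLp v), ⟨ofLp v, rfl⟩, rfl⟩
    · rintro ⟨_, ⟨v, rfl⟩, rfl⟩
      exact ⟨toLp 2 v, rfl⟩
  rw [h]
  exact (LinearEquiv.finrank_map_eq _ _).symm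

/-- compressing a unitary to a unitary -/
theorem compressR (U : Matrix.unitaryGroup X ℂ) (J : Matrix X Y ℂ) (hJ : Jᴴ * J = 1) (r : ℕ)
    (hr : ((1 - J * Jᴴ) * U.1 * J).rank ≤ r) :
    ∃ φ : Matrix.unitaryGroup Y ℂ, fro (U.1 * J - J * φ.1) ≤ 4 * (r : ℝ) := by
  classical
  have hUJ : (U.1 * J)ᴴ * (U.1 * J) = 1 := by
    rw [conjTranspose_mul, Matrix.mul_assoc, ← Matrix.mul_assoc (U.1)ᴴ, uh_mul, Matrix.one_mul, hJ]
  let L0 : EuclideanSpace ℂ Y →ₗ[ℂ] EuclideanSpace ℂ X := toEuclideanLin (U.1 * J)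
  have hL0 : ∀ v, ‖L0 v‖ = ‖v‖ := isometry_norm _ hUJ
  let ρ : EuclideanSpace ℂ Y →ₗ[ℂ] EuclideanSpace ℂ X := toEuclideanLin ((1 - J * Jᴴ) * U.1 * J)
  let K : Submodule ℂ (EuclideanSpace ℂ Y) := LinearMap.ker ρ
  have hKdim : (Fintype.card Y : ℝ) - Module.finrank ℂ K ≤ r := by
    have h1 := LinearMap.finrank_range_add_finrank_ker ρ
    rw [finrank_euclideanSpace] at h1
    have h2 : Module.finrank ℂ (LinearMap.range ρ) ≤ r := by
      rw [← rank_eq_toEuclideanLin]; exact hr
    have h4 : (Module.finrank ℂ (LinearMap.range ρ) : ℝ) +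
        Module.finrank ℂ K = Fintype.card Y := by exact_mod_cast h1
    have h5 : (Module.finrank ℂ (LinearMap.range ρ) : ℝ) ≤ r := by exact_mod_cast h2
    linarith
  let L1 : EuclideanSpace ℂ Y →ₗ[ℂ] EuclideanSpace ℂ Y := toEuclideanLin (Jᴴ * (U.1 * J))
  have hL1 : ∀ v ∈ K, toEuclideanLin J (L1 v) = L0 v := by
    intro v hv
    have h1 : toEuclideanLin ((1 - J * Jᴴ) * U.1 * J) v = 0 := LinearMap.mem_ker.mp hv
    have h2 : (1 - J * Jᴴ) * U.1 * J = U.1 * J - J * (Jᴴ * (U.1 * J)) := by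
      simp only [Matrix.sub_mul, Matrix.one_mul, Matrix.mul_assoc]
    rw [h2, map_sub, LinearMap.sub_apply, sub_eq_zero] at h1
    show toEuclideanLin J (toEuclideanLin (Jᴴ * (U.1 * J)) v) = toEuclideanLin (U.1 * J) v
    rw [h1]
    show toLp 2 (J *ᵥ ((Jᴴ * (U.1 * J)) *ᵥ ofLp v)) = toLp 2 ((J * (Jᴴ * (U.1 * J))) *ᵥ ofLp v)
    rw [mulVec_mulVec]
  let L : K →ₗᵢ[ℂ] EuclideanSpace ℂ Y :=
    { toLinearMap := L1.domRestrict K
      norm_map' := fun v => by
        show ‖L1 v.1‖ = ‖v.1‖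
        rw [← isometry_norm J hJ (L1 v.1), hL1 v.1 v.2, hL0] }
  let E := L.extend
  let b := EuclideanSpace.basisFun Y ℂ
  have hφ : (colm (fun y => E (b y)))ᴴ * colm (fun y => E (b y)) = 1 := by
    apply colm_isometry
    exact b.orthonormal.comp_linearIsometry E
  have hφE : ∀ v, toEuclideanLin (colm (fun y => E (b y))) v = E v := by
    intro v
    have h1 : v = ∑ y, v y • b y := by
      conv_lhs => rw [← b.sum_repr v]
      rfl
    conv_rhs => rw [h1, map_sum]
    ext x
    rw [toEuclideanLin_coord, WithLp.ofLp_sum, Finset.sum_apply]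
    refine Finset.sum_congr rfl fun y _ => ?_
    rw [map_smul]
    show (E (b y)) x * v y = v y * (E (b y)) x
    rw [mul_comm]
  refine ⟨⟨colm (fun y => E (b y)), Matrix.mem_unitaryGroup_iff'.mpr hφ⟩, ?_⟩
  show fro (U.1 * J - J * colm (fun y => E (b y))) ≤ _
  have hD : ∀ v, toEuclideanLin (U.1 * J - J * colm (fun y => E (b y))) v =
      L0 v - toEuclideanLin J (E v) := by
    intro v
    rw [map_sub, LinearMap.sub_apply, ← hφE v]
    congr 1
    show toLp 2 ((J * colm (fun y => E (b y))) *ᵥ ofLp v) =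
      toLp 2 (J *ᵥ (colm (fun y => E (b y)) *ᵥ ofLp v))
    rw [mulVec_mulVec]
  refine (fro_le_of_ker _ K ?_ 4 ?_).trans ?_
  · intro v hv
    rw [hD, show E v = L ⟨v, hv⟩ from LinearIsometry.extend_apply L ⟨v, hv⟩,
      show toEuclideanLin J (L ⟨v, hv⟩) = L0 v from hL1 v hv, sub_self]
  · intro v
    rw [hD]
    have h1 : ‖L0 v - toEuclideanLin J (E v)‖ ≤ 2 * ‖v‖ := by
      refine (norm_sub_le _ _).trans ?_
      rw [hL0, isometry_norm J hJ, E.norm_map]
      linarith
    calc ‖L0 v - toEuclideanLin J (E v)‖ ^ 2 ≤ (2 * ‖v‖) ^ 2 :=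
          pow_le_pow_left₀ (norm_nonneg _) h1 2
      _ = 4 * ‖v‖ ^ 2 := by ring
  · linarith

end comp

section proj

variable {X : Type} [Fintype X] [DecidableEq X]

/-- the matrix of the orthogonal projection -/
noncomputable def pj (W : Submodule ℂ (EuclideanSpace ℂ X)) : Matrix X X ℂ :=
  colm (fun i => ((stdOrthonormalBasis ℂ W i : W) : EuclideanSpace ℂ X)) *
    (colm (fun i => ((stdOrthonormalBasis ℂ W i : W) : EuclideanSpace ℂ X)))ᴴ

noncomputable def cm (W : Submodule ℂ (EuclideanSpace ℂ X)) :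
    Matrix X (Fin (Module.finrank ℂ W)) ℂ :=
  colm (fun i => ((stdOrthonormalBasis ℂ W i : W) : EuclideanSpace ℂ X))

theorem cm_iso (W : Submodule ℂ (EuclideanSpace ℂ X)) : (cm W)ᴴ * cm W = 1 := by
  apply colm_isometry
  exact (stdOrthonormalBasis ℂ W).orthonormal.comp_linearIsometry W.subtypeₗᵢ

theorem pj_eq (W : Submodule ℂ (EuclideanSpace ℂ X)) : pj W = cm W * (cm W)ᴴ := rfl

theorem pj_herm (W : Submodule ℂ (EuclideanSpace ℂ X)) : (pj W)ᴴ = pj W := by
  rw [pj_eq, conjTranspose_mul, conjTranspose_conjTranspose]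

theorem toLin_mul {Y Z : Type} [Fintype Y] [DecidableEq Y] [Fintype Z] [DecidableEq Z]
    (A : Matrix X Y ℂ) (B : Matrix Y Z ℂ)
    (v : EuclideanSpace ℂ Z) : toEuclideanLin (A * B) v = toEuclideanLin A (toEuclideanLin B v) := by
  show toLp 2 ((A * B) *ᵥ ofLp v) = toLp 2 (A *ᵥ (B *ᵥ ofLp v))
  rw [mulVec_mulVec]

theorem pj_mem (W : Submodule ℂ (EuclideanSpace ℂ X)) (v : EuclideanSpace ℂ X) :
    toEuclideanLin (pj W) v ∈ W := by
  rw [pj_eq, toLin_mul]
  have h1 : ∀ w, toEuclideanLin (cm W) w =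
      ∑ i, w i • ((stdOrthonormalBasis ℂ W i : W) : EuclideanSpace ℂ X) := by
    intro w
    ext x
    rw [toEuclideanLin_coord, WithLp.ofLp_sum, Finset.sum_apply]
    refine Finset.sum_congr rfl fun i _ => ?_
    show ((stdOrthonormalBasis ℂ W i : W) : EuclideanSpace ℂ X) x * w i = w i * _
    rw [mul_comm]
    rfl
  rw [h1]
  exact Submodule.sum_mem _ fun i _ => Submodule.smul_mem _ _ (Subtype.coe_prop _)

theorem pj_id (W : Submodule ℂ (EuclideanSpace ℂ X)) (v : EuclideanSpace ℂ X) (hv : v ∈ W) :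
    toEuclideanLin (pj W) v = v := by
  have h2 := (stdOrthonormalBasis ℂ W).sum_repr' ⟨v, hv⟩
  have h3 : ((∑ i, inner ℂ ((stdOrthonormalBasis ℂ W) i) (⟨v, hv⟩ : W) •
      (stdOrthonormalBasis ℂ W) i : W) : EuclideanSpace ℂ X) = v := congrArg (Subtype.val) h2
  refine Eq.trans ?_ h3
  rw [pj_eq, toLin_mul]
  ext x
  rw [toEuclideanLin_coord, Submodule.coe_sum, WithLp.ofLp_sum, Finset.sum_apply]
  refine Finset.sum_congr rfl fun i _ => ?_
  rw [toEuclideanLin_coord]
  show ((stdOrthonormalBasis ℂ W i : W) : EuclideanSpace ℂ X) x * _ =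
    (inner ℂ (stdOrthonormalBasis ℂ W i) (⟨v, hv⟩ : W) : ℂ) * _
  rw [mul_comm]
  congr 1
  rw [Submodule.coe_inner, inner_eq_sum]
  rfl

theorem pj_le {W W' : Submodule ℂ (EuclideanSpace ℂ X)} (h : W ≤ W') :
    pj W' * pj W = pj W := by
  have : toEuclideanLin (pj W' * pj W) = toEuclideanLin (pj W) := by
    ext1 v
    rw [toLin_mul, pj_id _ _ (h (pj_mem W v))]
  exact toEuclideanLin.injective this

theorem pj_le' {W W' : Submodule ℂ (EuclideanSpace ℂ X)} (h : W ≤ W') :
    pj W * pj W' = pj W := by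
  have := congrArg conjTranspose (pj_le h)
  rwa [conjTranspose_mul, pj_herm, pj_herm] at this

theorem pj_bot : pj (⊥ : Submodule ℂ (EuclideanSpace ℂ X)) = 0 := by
  have : toEuclideanLin (pj (⊥ : Submodule ℂ (EuclideanSpace ℂ X))) = toEuclideanLin 0 := by
    ext1 v
    have := pj_mem (⊥ : Submodule ℂ (EuclideanSpace ℂ X)) v
    rw [Submodule.mem_bot] at this
    rw [this, map_zero]
    rfl
  exact toEuclideanLin.injective this

theorem pj_top : pj (⊤ : Submodule ℂ (EuclideanSpace ℂ X)) = 1 := by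
  have : toEuclideanLin (pj (⊤ : Submodule ℂ (EuclideanSpace ℂ X))) = toEuclideanLin 1 := by
    ext1 v
    rw [pj_id _ _ Submodule.mem_top]
    show v = toLp 2 (1 *ᵥ ofLp v)
    rw [one_mulVec]
  exact toEuclideanLin.injective this

theorem pj_trace (W : Submodule ℂ (EuclideanSpace ℂ X)) :
    trace (pj W) = (Module.finrank ℂ W : ℂ) := by
  rw [pj_eq, Matrix.trace_mul_comm, cm_iso, Matrix.trace_one, Fintype.card_fin]

/-- almost invariance in terms of the rank of an off-diagonal block -/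
theorem rk_inv (U : Matrix X X ℂ) (W : Submodule ℂ (EuclideanSpace ℂ X)) (r : ℕ)
    (h : Module.finrank ℂ (W ⊔ W.map (toEuclideanLin U) : Submodule ℂ (EuclideanSpace ℂ X)) ≤
      Module.finrank ℂ W + r) : ((1 - pj W) * U * pj W).rank ≤ r := by
  set Y : Submodule ℂ (EuclideanSpace ℂ X) := W ⊔ W.map (toEuclideanLin U) with hY
  let f : Y →ₗ[ℂ] EuclideanSpace ℂ X := (toEuclideanLin (1 - pj W)).domRestrict Y
  have h1 := LinearMap.finrank_range_add_finrank_ker f
  have h2 : Module.finrank ℂ W ≤ Module.finrank ℂ (LinearMap.ker f) := by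
    have hW : ∀ w : W, Submodule.inclusion (le_sup_left : W ≤ Y) w ∈ LinearMap.ker f := by
      intro w
      rw [LinearMap.mem_ker]
      show toEuclideanLin (1 - pj W) w.1 = 0
      rw [map_sub, LinearMap.sub_apply, pj_id W w.1 w.2]
      have : toEuclideanLin (1 : Matrix X X ℂ) w.1 = w.1 := by
        show toLp 2 (1 *ᵥ ofLp w.1) = w.1
        rw [one_mulVec]
      rw [this, sub_self]
    refine LinearMap.finrank_le_finrank_of_injective
      (f := (Submodule.inclusion (le_sup_left : W ≤ Y)).codRestrict (LinearMap.ker f) hW) ?_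
    intro a b hab
    have := congrArg (fun x => ((x : LinearMap.ker f) : Y)) hab
    exact Submodule.inclusion_injective _ this
  have h3 : LinearMap.range (toEuclideanLin ((1 - pj W) * U * pj W)) ≤ LinearMap.range f := by
    rintro _ ⟨v, rfl⟩
    rw [Matrix.mul_assoc, toLin_mul, toLin_mul]
    exact ⟨⟨toEuclideanLin U (toEuclideanLin (pj W) v), Submodule.mem_sup_right
      ⟨_, pj_mem W v, rfl⟩⟩, rfl⟩
  rw [rank_eq_toEuclideanLin]
  have h4 := Submodule.finrank_mono h3
  omega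

/-- a projection matrix comes from an isometry -/
theorem exists_iso (P : Matrix X X ℂ) (hP : P * P = P) (hH : Pᴴ = P) :
    ∃ (k : ℕ) (J : Matrix X (Fin k) ℂ), Jᴴ * J = 1 ∧ J * Jᴴ = P := by
  let W := LinearMap.range (toEuclideanLin P)
  refine ⟨Module.finrank ℂ W, cm W, cm_iso W, ?_⟩
  rw [← pj_eq]
  have h1 : P * pj W = pj W := by
    have : toEuclideanLin (P * pj W) = toEuclideanLin (pj W) := by
      ext1 v
      rw [toLin_mul]
      obtain ⟨u, hu⟩ := pj_mem W v
      rw [← hu, ← toLin_mul, hP]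
    exact toEuclideanLin.injective this
  have h2 : pj W * P = P := by
    have : toEuclideanLin (pj W * P) = toEuclideanLin P := by
      ext1 v
      rw [toLin_mul, pj_id W _ ⟨v, rfl⟩]
    exact toEuclideanLin.injective this
  have h3 := congrArg conjTranspose h2
  rw [conjTranspose_mul, hH, pj_herm, h1] at h3
  exact h3

end proj

end Pool.Agent.H698R5
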