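import Mathlib

set_option autoImplicit false
set_option linter.unusedSectionVars false

/-! Almost invariant subspaces for groups of subexponential growth. -/

namespace Pool.Agent.H698R5

open Module

/-- products of `n` elements of `S` -/
def wd {G : Type} [Group G] (S : Finset G) (n : ℕ) : Set G :=
  {g | ∃ l : List G, l.length = n ∧ (∀ x ∈ l, x ∈ S) ∧ l.prod = g}

section

variable {G : Type} [Group G] (S : Finset G)

theorem wd_zero : wd S 0 = {1} := by
  ext g
  constructor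
  · rintro ⟨l, h1, -, rfl⟩
    rw [List.length_eq_zero_iff] at h1
    subst h1
    rfl
  · intro h
    rw [Set.mem_singleton_iff] at h
    subst h
    exact ⟨[], rfl, by simp, rfl⟩

theorem wd_succ {n : ℕ} {s g : G} (hs : s ∈ S) (hg : g ∈ wd S n) : s * g ∈ wd S (n + 1) := by
  obtain ⟨l, h1, h2, rfl⟩ := hg
  refine ⟨s :: l, by simp [h1], ?_, by simp⟩
  intro x hx
  rcases List.mem_cons.mp hx with h | h
  · exact h ▸ hs
  · exact h2 x h

theorem wd_finite (n : ℕ) : (wd S n).Finite := by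
  induction n with
  | zero => rw [wd_zero]; exact Set.finite_singleton _
  | succ n ih =>
    refine (Set.Finite.image2 (fun a b => a * b) S.finite_toSet ih).subset ?_
    rintro g ⟨l, h1, h2, rfl⟩
    cases l with
    | nil => simp at h1
    | cons a l =>
      refine ⟨a, h2 a (by simp), l.prod, ⟨l, by simpa using h1, fun x hx => h2 x (by simp [hx]),
        rfl⟩, by simp⟩

theorem wd_mono (h1 : (1 : G) ∈ S) : Monotone (wd S) := by
  refine monotone_nat_of_le_succ fun n g hg => ?_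
  have := wd_succ S h1 hg
  rwa [one_mul] at this

end

section

variable {G : Type} [Group G] (S : Finset G) {K V : Type} [Field K] [AddCommGroup V] [Module K V]
  [FiniteDimensional K V] (ρ : G → V →ₗ[K] V)

/-- `W` is almost invariant under `S`. -/
def AI (c : ℝ) (W : Submodule K V) : Prop :=
  ∀ s ∈ S, (finrank K (W ⊔ W.map (ρ s) : Submodule K V) : ℝ) ≤ (1 + c) * finrank K W

def spn (ξ : V) (n : ℕ) : Submodule K V := Submodule.span K ((fun g => ρ g ξ) '' wd S n)

theorem spn_le (ξ : V) (n : ℕ) : finrank K (spn S ρ ξ n) ≤ (wd S n).ncard := by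
  classical
  have h1 : (fun g => ρ g ξ) '' wd S n = ((wd_finite S n).toFinset.image (fun g => ρ g ξ) :
      Finset V) := by
    ext x; simp
  unfold spn
  rw [h1]
  refine (finrank_span_finset_le_card _).trans (Finset.card_image_le.trans ?_)
  rw [Set.ncard_eq_toFinset_card _ (wd_finite S n)]

theorem grow (h1 : (1 : G) ∈ S) (hρ1 : ρ 1 = LinearMap.id)
    (hρ : ∀ g h v, ρ (g * h) v = ρ g (ρ h v)) (c : ℝ) (hc : 0 < c) (n₀ : ℕ)
    (hn₀ : ((wd S n₀).ncard : ℝ) < (1 + c) ^ n₀) (W : Submodule K V) (hW : W ≠ ⊤)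
    (hWd : AI S ρ c W) :
    ∃ W' : Submodule K V, W < W' ∧ finrank K W' ≤ finrank K W + (wd S n₀).ncard ∧
      AI S ρ c W' := by
  obtain ⟨ξ, hξ⟩ : ∃ ξ, ξ ∉ W := by
    by_contra hcon
    push Not at hcon
    exact hW (Submodule.eq_top_iff'.mpr hcon)
  let Wn : ℕ → Submodule K V := fun n => W ⊔ spn S ρ ξ n
  have hsp : Monotone (spn S ρ ξ) := fun a b hab =>
    Submodule.span_mono (Set.image_mono (wd_mono S h1 hab))
  have hmono : Monotone Wn := fun a b hab => sup_le_sup_left (hsp hab) _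
  have hξn : ξ ∈ Wn 0 := by
    refine Submodule.mem_sup_right (Submodule.subset_span ⟨1, ?_, ?_⟩)
    · rw [wd_zero]; rfl
    · show ρ 1 ξ = ξ
      rw [hρ1]; rfl
  have hlt : ∀ n, W < Wn n := by
    intro n
    refine lt_of_le_of_ne le_sup_left fun h => hξ ?_
    rw [h]
    exact hmono (Nat.zero_le n) hξn
  let a : ℕ → ℝ := fun n => (finrank K (Wn n) : ℝ) - finrank K W
  have ha0 : 1 ≤ a 0 := by
    have h2 := Submodule.finrank_lt_finrank_of_lt (hlt 0)
    have h3 : (finrank K W : ℝ) + 1 ≤ finrank K (Wn 0) := by exact_mod_cast h2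
    show 1 ≤ (finrank K (Wn 0) : ℝ) - finrank K W
    linarith
  have hle : ∀ n, finrank K (Wn n) ≤ finrank K W + (wd S n).ncard := fun n =>
    (Submodule.finrank_add_le_finrank_add_finrank _ _).trans
      (Nat.add_le_add_left (spn_le S ρ ξ n) _)
  obtain ⟨n, hn, han⟩ : ∃ n < n₀, a (n + 1) ≤ (1 + c) * a n := by
    by_contra hcon
    push Not at hcon
    have h2 : ∀ n ≤ n₀, (1 + c) ^ n ≤ a n := by
      intro n
      induction n with
      | zero => intro _; rw [pow_zero]; exact ha0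
      | succ n ih =>
        intro hn
        have h3 := ih (by omega)
        have h4 := hcon n (by omega)
        have h5 : (1 + c) ^ (n + 1) = (1 + c) * (1 + c) ^ n := by ring
        have h6 : (1 + c) * (1 + c) ^ n ≤ (1 + c) * a n := by gcongr
        linarith
    have h3 := h2 n₀ le_rfl
    have h4 : (finrank K (Wn n₀) : ℝ) ≤ finrank K W + (wd S n₀).ncard := by
      exact_mod_cast hle n₀
    have h5 : a n₀ = (finrank K (Wn n₀) : ℝ) - finrank K W := rfl
    linarith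
  refine ⟨Wn n, hlt n, (hle n).trans (Nat.add_le_add_left
    (Set.ncard_le_ncard (wd_mono S h1 hn.le) (wd_finite S n₀)) _), fun s hs => ?_⟩
  have hmap : Wn n ⊔ (Wn n).map (ρ s) ≤ (W ⊔ W.map (ρ s)) ⊔ Wn (n + 1) := by
    refine sup_le ((hmono (Nat.le_succ n)).trans le_sup_right) ?_
    show (W ⊔ spn S ρ ξ n).map (ρ s) ≤ _
    rw [Submodule.map_sup]
    refine sup_le (le_sup_right.trans le_sup_left) ?_
    refine le_trans ?_ ((le_sup_right : spn S ρ ξ (n + 1) ≤ Wn (n + 1)).trans le_sup_right)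
    unfold spn
    rw [Submodule.map_span]
    refine Submodule.span_mono ?_
    rintro _ ⟨_, ⟨g, hg, rfl⟩, rfl⟩
    exact ⟨s * g, wd_succ S hs hg, hρ s g ξ⟩
  have h2 := Submodule.finrank_mono hmap
  have h3 := Submodule.finrank_sup_add_finrank_inf_eq (W ⊔ W.map (ρ s)) (Wn (n + 1))
  have h4 : finrank K W ≤ finrank K ((W ⊔ W.map (ρ s)) ⊓ Wn (n + 1) : Submodule K V) :=
    Submodule.finrank_mono (le_inf le_sup_left le_sup_left)
  have h5 := hWd s hs
  have h6 : (finrank K (Wn n ⊔ (Wn n).map (ρ s) : Submodule K V) : ℝ) ≤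
      finrank K ((W ⊔ W.map (ρ s)) ⊔ Wn (n + 1) : Submodule K V) := by exact_mod_cast h2
  have h7 : (finrank K ((W ⊔ W.map (ρ s)) ⊔ Wn (n + 1) : Submodule K V) : ℝ) +
      finrank K ((W ⊔ W.map (ρ s)) ⊓ Wn (n + 1) : Submodule K V) =
      finrank K (W ⊔ W.map (ρ s) : Submodule K V) + finrank K (Wn (n + 1)) := by exact_mod_cast h3
  have h8 : (finrank K W : ℝ) ≤
      finrank K ((W ⊔ W.map (ρ s)) ⊓ Wn (n + 1) : Submodule K V) := by exact_mod_cast h4
  have h9 : a (n + 1) = (finrank K (Wn (n + 1)) : ℝ) - finrank K W := rfl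
  have h10 : a n = (finrank K (Wn n) : ℝ) - finrank K W := rfl
  rw [h9, h10] at han
  linarith

theorem reach (h1 : (1 : G) ∈ S) (hρ1 : ρ 1 = LinearMap.id)
    (hρ : ∀ g h v, ρ (g * h) v = ρ g (ρ h v)) (c : ℝ) (hc : 0 < c) (n₀ : ℕ)
    (hn₀ : ((wd S n₀).ncard : ℝ) < (1 + c) ^ n₀) (m : ℕ) (hm : m ≤ finrank K V) :
    ∀ (d : ℕ) (W : Submodule K V), m - finrank K W = d → AI S ρ c W →
    ∃ W' : Submodule K V, W ≤ W' ∧ AI S ρ c W' ∧ m ≤ finrank K W' ∧
      finrank K W' ≤ max (finrank K W) (m + (wd S n₀).ncard) := by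
  intro d
  induction d using Nat.strong_induction_on with
  | _ d ih =>
    intro W hd hW
    by_cases hmW : m ≤ finrank K W
    · exact ⟨W, le_rfl, hW, hmW, le_max_left _ _⟩
    push Not at hmW
    have hne : W ≠ ⊤ := by
      rintro rfl
      rw [finrank_top] at hmW
      omega
    obtain ⟨W1, g1, g2, g3⟩ := grow S ρ h1 hρ1 hρ c hc n₀ hn₀ W hne hW
    have g4 := Submodule.finrank_lt_finrank_of_lt g1
    obtain ⟨W', k1, k2, k3, k4⟩ := ih (m - finrank K W1) (by omega) W1 rfl g3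
    refine ⟨W', g1.le.trans k1, k2, k3, k4.trans ?_⟩
    refine max_le ?_ (le_max_right _ _)
    refine le_trans ?_ (le_max_right _ _)
    omega

theorem flag (h1 : (1 : G) ∈ S) (hρ1 : ρ 1 = LinearMap.id)
    (hρ : ∀ g h v, ρ (g * h) v = ρ g (ρ h v)) (c : ℝ) (hc : 0 < c) (n₀ : ℕ)
    (hn₀ : ((wd S n₀).ncard : ℝ) < (1 + c) ^ n₀) (m : ℕ → ℕ) (hm0 : m 0 = 0) (hm : Monotone m)
    (hmV : ∀ i, m i ≤ finrank K V) :
    ∃ W : ℕ → Submodule K V, W 0 = ⊥ ∧ Monotone W ∧ ∀ i, AI S ρ c (W i) ∧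
      m i ≤ finrank K (W i) ∧ finrank K (W i) ≤ m i + (wd S n₀).ncard := by
  have h0 : AI S ρ c (⊥ : Submodule K V) := by
    intro s _
    rw [Submodule.map_bot, sup_idem, finrank_bot]
    simp
  choose nx hx1 hx2 hx3 hx4 using fun (i : ℕ) (W : {W : Submodule K V // AI S ρ c W}) =>
    reach S ρ h1 hρ1 hρ c hc n₀ hn₀ (m i) (hmV i) _ W.1 rfl W.2
  let W : ℕ → {W : Submodule K V // AI S ρ c W} := fun n =>
    Nat.rec ⟨⊥, h0⟩ (fun i w => ⟨nx (i + 1) w, hx2 (i + 1) w⟩) n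
  have hW0 : W 0 = ⟨⊥, h0⟩ := rfl
  have hWs : ∀ i, W (i + 1) = ⟨nx (i + 1) (W i), hx2 (i + 1) (W i)⟩ := fun i => rfl
  refine ⟨fun i => (W i).1, rfl, monotone_nat_of_le_succ fun i =>
    hx1 (i + 1) (W i), fun i => ⟨(W i).2, ?_⟩⟩
  induction i with
  | zero =>
    show m 0 ≤ finrank K (⊥ : Submodule K V) ∧ finrank K (⊥ : Submodule K V) ≤ _
    rw [hm0, finrank_bot]
    exact ⟨le_rfl, Nat.zero_le _⟩
  | succ i ih =>
    show m (i + 1) ≤ finrank K (nx (i + 1) (W i)) ∧ finrank K (nx (i + 1) (W i)) ≤ _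
    refine ⟨hx3 (i + 1) (W i), (hx4 (i + 1) (W i)).trans (max_le ?_ le_rfl)⟩
    have h5 : m i ≤ m (i + 1) := hm (Nat.le_succ i)
    exact ih.2.trans (Nat.add_le_add_right h5 _)

end

end Pool.Agent.H698R5
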