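import Mathlib

set_option autoImplicit false

/-! Rounding: selecting a subfamily of vectors with sum close to a given fraction. -/

namespace Pool.Agent.H698R5

theorem round_aux {ι E : Type} [Fintype ι] [DecidableEq ι] [Fintype E] (v : ι → E → ℝ) (lam : ℝ)
    (h0 : 0 ≤ lam) (h1 : lam ≤ 1) :
    ∃ z : ι → ℝ, (∀ i, 0 ≤ z i) ∧ (∀ i, z i ≤ 1) ∧
      (∀ e, ∑ i, z i * v i e = lam * ∑ i, v i e) ∧
      Set.ncard {i | 0 < z i ∧ z i < 1} ≤ Fintype.card E := by
  classical
  let Q : ℕ → Prop := fun n => ∃ z : ι → ℝ, (∀ i, 0 ≤ z i) ∧ (∀ i, z i ≤ 1) ∧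
      (∀ e, ∑ i, z i * v i e = lam * ∑ i, v i e) ∧
      Set.ncard {i | 0 < z i ∧ z i < 1} = n
  have hQ : ∃ n, Q n := ⟨_, fun _ => lam, fun _ => h0, fun _ => h1, fun e => by
    rw [Finset.mul_sum], rfl⟩
  obtain ⟨z, z0, z1, zs, zc⟩ := Nat.find_spec hQ
  have hmin : ∀ n, Q n → Nat.find hQ ≤ n := fun n hn => Nat.find_min' hQ hn
  refine ⟨z, z0, z1, zs, ?_⟩
  by_contra hcard
  push Not at hcard
  let Fz : Finset ι := Finset.univ.filter (fun i => 0 < z i ∧ z i < 1)
  have hFz : ∀ i, i ∈ Fz ↔ 0 < z i ∧ z i < 1 := fun i => by simp [Fz]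
  have hFc : Fintype.card E < Fz.card := by
    have : {i | 0 < z i ∧ z i < 1} = (Fz : Set ι) := by
      ext i; simp [Fz]
    rwa [this, Set.ncard_coe_finset] at hcard
  -- linear dependence
  have hdep : ¬ LinearIndependent ℝ (fun i : Fz => v i.1) := by
    intro hli
    have := hli.fintype_card_le_finrank
    rw [Module.finrank_fintype_fun_eq_card, Fintype.card_coe] at this
    omega
  rw [Fintype.linearIndependent_iff] at hdep
  push Not at hdep
  obtain ⟨g, hg, ⟨i₀, hi₀⟩⟩ := hdep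
  let c : ι → ℝ := fun i => if h : i ∈ Fz then g ⟨i, h⟩ else 0
  have hc0 : ∀ i, i ∉ Fz → c i = 0 := fun i hi => dif_neg hi
  have hcF : ∀ i : Fz, c i.1 = g i := fun i => by
    show (if h : i.1 ∈ Fz then g ⟨i.1, h⟩ else 0) = g i
    rw [dif_pos i.2]
  have hcs : ∀ e, ∑ i, c i * v i e = 0 := by
    intro e
    have h2 := congrFun hg e
    rw [Finset.sum_apply, Pi.zero_apply] at h2
    rw [← h2, ← Finset.sum_subset (Finset.subset_univ Fz) (fun i _ hi => by
      rw [hc0 i hi, zero_mul]), ← Finset.sum_coe_sort Fz]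
    refine Finset.sum_congr rfl fun i _ => ?_
    rw [hcF, Pi.smul_apply, smul_eq_mul]
  -- maximal step
  let C : Finset ι := Fz.filter (fun i => c i ≠ 0)
  have hC : C.Nonempty := ⟨i₀.1, by
    rw [Finset.mem_filter]
    exact ⟨i₀.2, by rw [hcF]; exact hi₀⟩⟩
  let st : ι → ℝ := fun i => if 0 < c i then (1 - z i) / c i else z i / (- c i)
  obtain ⟨i₁, hi₁, hmin₁⟩ := Finset.exists_min_image C st hC
  rw [Finset.mem_filter] at hi₁
  have hst : ∀ i ∈ C, 0 < st i := by
    intro i hi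
    rw [Finset.mem_filter, hFz] at hi
    show 0 < if 0 < c i then (1 - z i) / c i else z i / (- c i)
    split_ifs with h
    · exact div_pos (by linarith) h
    · exact div_pos hi.1.1 (by
        have := lt_of_le_of_ne (not_lt.mp h) hi.2
        linarith)
  set t := st i₁ with ht
  have ht0 : 0 < t := hst i₁ (Finset.mem_filter.mpr hi₁)
  have key : ∀ i, 0 ≤ z i + t * c i ∧ z i + t * c i ≤ 1 := by
    intro i
    by_cases hi : i ∈ C
    · have h2 := hmin₁ i hi
      have hi' := Finset.mem_filter.mp hi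
      rw [hFz] at hi'
      have h3 : st i = if 0 < c i then (1 - z i) / c i else z i / (- c i) := rfl
      rw [h3] at h2
      split_ifs at h2 with h
      · rw [le_div_iff₀ h] at h2
        exact ⟨by nlinarith [hi'.1.1], by linarith⟩
      · have h4 : c i < 0 := lt_of_le_of_ne (not_lt.mp h) hi'.2
        rw [le_div_iff₀ (by linarith)] at h2
        exact ⟨by linarith, by nlinarith [hi'.1.2]⟩
    · have : c i = 0 := by
        by_contra hne
        by_cases hF : i ∈ Fz
        · exact hi (Finset.mem_filter.mpr ⟨hF, hne⟩)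
        · exact hne (hc0 i hF)
      rw [this, mul_zero, add_zero]
      exact ⟨z0 i, z1 i⟩
  have hbd : ¬ (0 < z i₁ + t * c i₁ ∧ z i₁ + t * c i₁ < 1) := by
    have h3 : t = if 0 < c i₁ then (1 - z i₁) / c i₁ else z i₁ / (- c i₁) := rfl
    rintro ⟨h4, h5⟩
    split_ifs at h3 with h
    · rw [h3, div_mul_cancel₀ _ h.ne'] at h5
      linarith
    · have h6 : c i₁ ≠ 0 := hi₁.2
      rw [h3, div_neg, neg_mul, div_mul_cancel₀ _ h6] at h4
      linarith
  have hsub : Set.ncard {i | 0 < z i + t * c i ∧ z i + t * c i < 1} <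
      Set.ncard {i | 0 < z i ∧ z i < 1} := by
    apply Set.ncard_lt_ncard _ (Set.toFinite _)
    refine ⟨fun i hi => ?_, fun hcon => ?_⟩
    · by_contra hne
      have h6 : i ∉ Fz := fun h => hne ((hFz i).mp h)
      have h7 : 0 < z i + t * c i ∧ z i + t * c i < 1 := hi
      rw [hc0 i h6, mul_zero, add_zero] at h7
      exact hne h7
    · exact hbd (hcon ((hFz i₁).mp hi₁.1))
  have := hmin _ ⟨fun i => z i + t * c i, fun i => (key i).1, fun i => (key i).2, fun e => by
    have h2 : ∑ i, (z i + t * c i) * v i e = ∑ i, z i * v i e + t * ∑ i, c i * v i e := by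
      rw [Finset.mul_sum, ← Finset.sum_add_distrib]
      exact Finset.sum_congr rfl fun i _ => by ring
    rw [h2, hcs, mul_zero, add_zero, zs], rfl⟩
  rw [← zc] at this
  exact absurd this (not_le.mpr hsub)

/-- one can select a subfamily whose sum is `lam` times the total sum up to `|E| b`. -/
theorem round {ι E : Type} [Fintype ι] [DecidableEq ι] [Fintype E] (v : ι → E → ℝ) (lam : ℝ)
    (h0 : 0 ≤ lam) (h1 : lam ≤ 1) (b : ℝ) (hb0 : 0 ≤ b) (hb : ∀ i e, |v i e| ≤ b) :
    ∃ I : Finset ι, ∀ e, |∑ i ∈ I, v i e - lam * ∑ i, v i e| ≤ Fintype.card E * b := by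
  classical
  obtain ⟨z, z0, z1, zs, zc⟩ := round_aux v lam h0 h1
  let Fz : Finset ι := Finset.univ.filter (fun i => 0 < z i ∧ z i < 1)
  have hFc : Fz.card ≤ Fintype.card E := by
    have : {i | 0 < z i ∧ z i < 1} = (Fz : Set ι) := by
      ext i; simp [Fz]
    rwa [this, Set.ncard_coe_finset] at zc
  refine ⟨Finset.univ.filter (fun i => z i = 1), fun e => ?_⟩
  rw [← zs e]
  have h2 : ∑ i ∈ Finset.univ.filter (fun i => z i = 1), v i e - ∑ i, z i * v i e =
      - ∑ i ∈ Fz, z i * v i e := by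
    have h3 : ∑ i, z i * v i e = ∑ i ∈ Finset.univ.filter (fun i => z i = 1), v i e +
        ∑ i ∈ Fz, z i * v i e := by
      rw [Finset.sum_filter, Finset.sum_filter, ← Finset.sum_add_distrib]
      refine Finset.sum_congr rfl fun i _ => ?_
      by_cases g1 : z i = 1
      · rw [if_pos g1, if_neg (by rw [g1]; simp), g1]; ring
      · rw [if_neg g1, zero_add]
        by_cases g2 : 0 < z i
        · rw [if_pos ⟨g2, lt_of_le_of_ne (z1 i) g1⟩]
        · have g3 : z i = 0 := le_antisymm (not_lt.mp g2) (z0 i)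
          rw [if_neg (by simp [g3]), g3, zero_mul]
    rw [h3]; ring
  rw [h2, abs_neg]
  refine (Finset.abs_sum_le_sum_abs _ _).trans ?_
  have h4 : ∀ i ∈ Fz, |z i * v i e| ≤ b := by
    intro i _
    rw [abs_mul, abs_of_nonneg (z0 i)]
    calc z i * |v i e| ≤ 1 * |v i e| := by gcongr; exact z1 i
      _ ≤ b := by rw [one_mul]; exact hb i e
  refine (Finset.sum_le_sum h4).trans ?_
  rw [Finset.sum_const, nsmul_eq_mul]
  have : (Fz.card : ℝ) ≤ Fintype.card E := by exact_mod_cast hFc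
  gcongr

end Pool.Agent.H698R5
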