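import Pool.Agent.H698R5.Comm
import Pool.Agent.H698R5.Grow
import Pool.Agent.H698R5.Round

set_option autoImplicit false
set_option linter.unusedSectionVars false

/-! Cutting a unitary representation of a group of subexponential growth. -/

namespace Pool.Agent.H698R5

open scoped ComplexOrder
open Matrix WithLp Pool.Agent.H698R3 Pool.Agent.H698R3.Amalg Pool.Agent.H698R4

/-- For every finite `S ⊆ G` and `c > 1` there is `n` such that fewer than `c ^ n` elements of `G`
are products of `n` elements of `S`. -/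
def SubexpGrowth (G : Type) [Group G] : Prop :=
  ∀ (S : Finset G) (c : ℝ), 1 < c → ∃ n : ℕ,
    (Set.ncard {g : G | ∃ l : List G, l.length = n ∧ (∀ x ∈ l, x ∈ S) ∧ l.prod = g} : ℝ) < c ^ n

section

variable {X : Type} [Fintype X] [DecidableEq X]

theorem fro_adj_le {Y Z : Type} [Fintype Y] [DecidableEq Y] [Fintype Z] (J : Matrix X Y ℂ)
    (hJ : Jᴴ * J = 1) (M : Matrix X Z ℂ) : fro (Jᴴ * M) ≤ fro M := by
  have h1 : fro ((1 - J * Jᴴ) * M) = fro M - fro (Jᴴ * M) := by
    have h2 : ((1 - J * Jᴴ) * M)ᴴ * ((1 - J * Jᴴ) * M) = Mᴴ * M - (Jᴴ * M)ᴴ * (Jᴴ * M) := by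
      have hJ' : ∀ N : Matrix Y Z ℂ, Jᴴ * (J * N) = N := by
        intro N; rw [← Matrix.mul_assoc, hJ, Matrix.one_mul]
      rw [conjTranspose_mul, conjTranspose_mul, conjTranspose_sub, conjTranspose_mul,
        conjTranspose_conjTranspose, conjTranspose_one]
      simp only [Matrix.sub_mul, Matrix.mul_sub, Matrix.one_mul, Matrix.mul_assoc, Matrix.mul_one,
        hJ']
      abel
    rw [fro_eq_re, fro_eq_re, fro_eq_re, h2, trace_sub, Complex.sub_re]
  have := fro_nonneg ((1 - J * Jᴴ) * M)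
  linarith

theorem trace_le_rank (U : Matrix.unitaryGroup X ℂ) {q : ℕ} (J : Matrix X (Fin q) ℂ)
    (hJ : Jᴴ * J = 1) : ‖trace (U.1 * (J * Jᴴ))‖ ≤ q := by
  have h1 : trace (U.1 * (J * Jᴴ)) = trace (Jᴴ * (U.1 * J)) := by
    rw [← Matrix.mul_assoc, Matrix.trace_mul_comm]
  have h2 := norm_trace_le (Jᴴ * (U.1 * J))
  have h3 : fro (Jᴴ * (U.1 * J)) ≤ q := by
    refine (fro_adj_le J hJ _).trans ?_
    rw [fro_mul_left _ (uh_mul U), fro_eq_re, hJ, Matrix.trace_one, Fintype.card_fin]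
    simp
  rw [Fintype.card_fin] at h2
  rw [h1]
  have h4 : ‖trace (Jᴴ * (U.1 * J))‖ ^ 2 ≤ (q : ℝ) ^ 2 := by
    have : (0 : ℝ) ≤ q := Nat.cast_nonneg _
    nlinarith
  exact (abs_le_of_sq_le_sq' h4 (Nat.cast_nonneg _)).2

end

theorem proj_sum {X : Type} [Fintype X] [DecidableEq X] (P : ℕ → Matrix X X ℂ)
    (hP : ∀ i j, i ≤ j → P i * P j = P i) (hP' : ∀ i j, i ≤ j → P j * P i = P i) {M : ℕ}
    (I : Finset (Fin M)) :
    (∑ i ∈ I, (P (i + 1) - P i)) * (∑ i ∈ I, (P (i + 1) - P i)) =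
      ∑ i ∈ I, (P (i + 1) - P i) := by
  rw [Finset.sum_mul]
  refine Finset.sum_congr rfl fun i hi => ?_
  rw [Finset.mul_sum, Finset.sum_eq_single i]
  · rw [Matrix.sub_mul, Matrix.mul_sub, Matrix.mul_sub, hP _ _ le_rfl, hP _ _ le_rfl,
      hP _ _ (Nat.le_succ _), hP' _ _ (Nat.le_succ _)]
    abel
  · intro j _ hj
    rcases lt_or_gt_of_ne (fun h => hj (Fin.ext h) : (j : ℕ) ≠ i) with h | h
    · rw [Matrix.sub_mul, Matrix.mul_sub, Matrix.mul_sub, hP' (j + 1) (i + 1) (by omega),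
        hP' j (i + 1) (by omega), hP' (j + 1) i (by omega), hP' j i (by omega)]
      abel
    · rw [Matrix.sub_mul, Matrix.mul_sub, Matrix.mul_sub, hP (i + 1) (j + 1) (by omega),
        hP (i + 1) j (by omega), hP i (j + 1) (by omega), hP i j (by omega)]
      abel
  · intro h; exact absurd hi h

open Classical in
theorem cutH {G H : Type} [Group G] [Group H] [Fintype H] (f : H →* G) (hG : SubexpGrowth G)
    (S : Finset G) (η : ℝ) (hη : 0 < η) :
    ∃ k₀ : ℕ, ∀ k ≥ k₀, ∀ (ψ : G →* Matrix.unitaryGroup (Fin k) ℂ) (lam : ℝ), 0 ≤ lam → lam ≤ 1 →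
      ∃ (k' : ℕ) (J : Matrix (Fin k) (Fin k') ℂ), Jᴴ * J = 1 ∧ |(k' : ℝ) - lam * k| ≤ η * k ∧
        (∀ h : H, ‖trace ((ψ (f h)).1 * (J * Jᴴ)) - lam * trace (ψ (f h)).1‖ ≤ η * k) ∧
        ∀ s ∈ S, ((((1 - J * Jᴴ) * (ψ s).1 * J).rank : ℕ) : ℝ) ≤ η * k := by
  let E := Option (H × Bool)
  set M : ℕ := ⌈4 * (Fintype.card E : ℝ) / η⌉₊ + 1 with hM
  have hM0 : (0 : ℝ) < M := by rw [hM]; positivity
  have hME : 4 * (Fintype.card E : ℝ) ≤ η * M := by
    have h1 : 4 * (Fintype.card E : ℝ) / η ≤ M := by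
      rw [hM]; push_cast
      have := Nat.le_ceil (4 * (Fintype.card E : ℝ) / η)
      linarith
    rw [div_le_iff₀ hη] at h1
    linarith
  set c : ℝ := η / (8 * M) with hc
  have hc0 : 0 < c := by positivity
  let S' : Finset G := (S ∪ S.image (fun g => g⁻¹)) ∪ {1}
  have hS1 : (1 : G) ∈ S' := Finset.mem_union_right _ (Finset.mem_singleton_self _)
  have hSS : ∀ s ∈ S, s ∈ S' := fun s hs => Finset.mem_union_left _ (Finset.mem_union_left _ hs)
  have hSi : ∀ s ∈ S, s⁻¹ ∈ S' := fun s hs => Finset.mem_union_left _ (Finset.mem_union_right _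
    (Finset.mem_image_of_mem _ hs))
  obtain ⟨n₀, hn₀⟩ := hG S' (1 + c) (by linarith)
  set N : ℕ := (wd S' n₀).ncard with hN
  refine ⟨M * (N + 1), fun k hk ψ lam hl0 hl1 => ?_⟩
  have hMpos : 0 < M := by rw [hM]; omega
  let m : ℕ → ℕ := fun i => min k (i * k / M)
  have hm0 : m 0 = 0 := by simp [m]
  have hmm : Monotone m := fun a b hab => min_le_min le_rfl
    (Nat.div_le_div_right (Nat.mul_le_mul_right k hab))
  have hmV : ∀ i, m i ≤ Module.finrank ℂ (EuclideanSpace ℂ (Fin k)) := fun i => by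
    rw [finrank_euclideanSpace, Fintype.card_fin]; exact min_le_left _ _
  let ρ : G → EuclideanSpace ℂ (Fin k) →ₗ[ℂ] EuclideanSpace ℂ (Fin k) := fun g =>
    toEuclideanLin (ψ g).1
  obtain ⟨W, hW0, hWm, hW⟩ := flag S' ρ hS1 (by
      ext1 v
      show toLp 2 ((ψ 1).1 *ᵥ ofLp v) = v
      rw [rep_one, one_mulVec]) (fun g h v => by
      show toEuclideanLin (ψ (g * h)).1 v = _
      rw [rep_mul, toLin_mul]) c hc0 n₀ hn₀ m hm0 hmm hmV
  have hWM : W M = ⊤ := by
    apply Submodule.eq_top_of_finrank_eq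
    refine le_antisymm (Submodule.finrank_le _) ?_
    have h1 := (hW M).2.1
    have h2 : m M = k := by
      show min k (M * k / M) = k
      rw [Nat.mul_div_cancel_left _ hMpos, min_self]
    rw [h2] at h1
    rwa [finrank_euclideanSpace, Fintype.card_fin]
  let P : ℕ → Matrix (Fin k) (Fin k) ℂ := fun i => pj (W i)
  have hP : ∀ i j, i ≤ j → P i * P j = P i := fun i j h => pj_le' (hWm h)
  have hP' : ∀ i j, i ≤ j → P j * P i = P i := fun i j h => pj_le (hWm h)
  have hk0 : (0 : ℝ) ≤ k := Nat.cast_nonneg _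
  -- block sizes
  have hblk : ∀ i, (Module.finrank ℂ (W (i + 1)) : ℝ) - Module.finrank ℂ (W i) ≤
      2 * k / M := by
    intro i
    have h1 := (hW (i + 1)).2.2
    have h2 := (hW i).2.1
    have h3 : m (i + 1) ≤ m i + (k / M + 1) := by
      show min k ((i + 1) * k / M) ≤ min k (i * k / M) + (k / M + 1)
      have h4 : (i + 1) * k / M ≤ i * k / M + k / M + 1 := by
        have h5 : (i + 1) * k = i * k + k := by ring
        rw [h5]
        have e1 := Nat.div_add_mod (i * k) M
        have e2 := Nat.div_add_mod k M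
        have e3 := Nat.mod_lt (i * k) hMpos
        have e4 := Nat.mod_lt k hMpos
        refine Nat.le_of_lt_succ ((Nat.div_lt_iff_lt_mul hMpos).mpr ?_)
        calc i * k + k = M * (i * k / M) + i * k % M + (M * (k / M) + k % M) := by rw [e1, e2]
          _ < M * (i * k / M) + M + (M * (k / M) + M) := by omega
          _ = (i * k / M + k / M + 1 + 1) * M := by ring
      have hmin : ∀ A B D : ℕ, A ≤ B + D → min k A ≤ min k B + D := by
        intro A B D h; omega
      exact hmin _ _ _ (by rw [← Nat.add_assoc]; exact h4)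
    have h6 : (Module.finrank ℂ (W (i + 1)) : ℝ) ≤ Module.finrank ℂ (W i) + (k / M + 1 + N) := by
      have h7 : Module.finrank ℂ (W (i + 1)) ≤ Module.finrank ℂ (W i) + (k / M + 1 + N) := by
        omega
      have h8 : ((k / M : ℕ) : ℝ) ≤ (k : ℝ) / M := Nat.cast_div_le
      have h9 : (Module.finrank ℂ (W (i + 1)) : ℝ) ≤ Module.finrank ℂ (W i) +
        (((k / M : ℕ) : ℝ) + 1 + N) := by exact_mod_cast h7
      linarith
    have h7 : (N : ℝ) + 1 ≤ (k : ℝ) / M := by
      rw [le_div_iff₀ hM0]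
      have : ((M * (N + 1) : ℕ) : ℝ) ≤ k := by exact_mod_cast hk
      push_cast at this
      linarith
    have h8 : 2 * (k : ℝ) / M = k / M + k / M := by ring
    rw [h8]
    linarith
  have hblk0 : ∀ i, (0 : ℝ) ≤ (Module.finrank ℂ (W (i + 1)) : ℝ) - Module.finrank ℂ (W i) := by
    intro i
    have := Submodule.finrank_mono (hWm (Nat.le_succ i))
    have h2 : (Module.finrank ℂ (W i) : ℝ) ≤ Module.finrank ℂ (W (i + 1)) := by exact_mod_cast this
    linarith
  -- the blocks
  have hQ : ∀ i, ∃ (q : ℕ) (J : Matrix (Fin k) (Fin q) ℂ), Jᴴ * J = 1 ∧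
      J * Jᴴ = P (i + 1) - P i ∧ (q : ℝ) ≤ 2 * k / M := by
    intro i
    obtain ⟨q, J, h1, h2⟩ := exists_iso (P (i + 1) - P i) (by
      rw [Matrix.sub_mul, Matrix.mul_sub, Matrix.mul_sub, hP _ _ le_rfl, hP _ _ le_rfl,
        hP _ _ (Nat.le_succ _), hP' _ _ (Nat.le_succ _)]
      abel) (by rw [conjTranspose_sub, pj_herm, pj_herm])
    refine ⟨q, J, h1, h2, ?_⟩
    have h3 : (q : ℂ) = (Module.finrank ℂ (W (i + 1)) : ℂ) - Module.finrank ℂ (W i) := by
      rw [← pj_trace, ← pj_trace, ← trace_sub]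
      show _ = trace (P (i + 1) - P i)
      rw [← h2, Matrix.trace_mul_comm, h1, Matrix.trace_one, Fintype.card_fin]
    have h4 : (q : ℝ) = (Module.finrank ℂ (W (i + 1)) : ℝ) - Module.finrank ℂ (W i) := by
      exact_mod_cast h3
    rw [h4]
    exact hblk i
  let v : Fin M → E → ℝ := fun i e => match e with
    | none => (trace (P (i + 1) - P i)).re
    | some (h, true) => (trace ((ψ (f h)).1 * (P (i + 1) - P i))).re
    | some (h, false) => (trace ((ψ (f h)).1 * (P (i + 1) - P i))).im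
  obtain ⟨I, hI⟩ := round v lam hl0 hl1 (2 * k / M) (by positivity) (by
    intro i e
    obtain ⟨q, J, h1, h2, h3⟩ := hQ i
    match e with
    | none =>
      show |(trace (P (i + 1) - P i)).re| ≤ _
      rw [← h2, Matrix.trace_mul_comm, h1, Matrix.trace_one, Fintype.card_fin]
      simpa using h3
    | some (h, true) =>
      show |(trace ((ψ (f h)).1 * (P (i + 1) - P i))).re| ≤ _
      rw [← h2]
      exact ((Complex.abs_re_le_norm _).trans (trace_le_rank _ J h1)).trans h3
    | some (h, false) =>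
      show |(trace ((ψ (f h)).1 * (P (i + 1) - P i))).im| ≤ _
      rw [← h2]
      exact ((Complex.abs_im_le_norm _).trans (trace_le_rank _ J h1)).trans h3)
  have hbd : (Fintype.card E : ℝ) * (2 * k / M) ≤ η / 2 * k := by
    have h1 : (Fintype.card E : ℝ) * (2 * k / M) = (4 * (Fintype.card E : ℝ)) * k / (2 * M) := by
      ring
    rw [h1, div_le_iff₀ (by positivity)]
    nlinarith
  have htel : ∑ i : Fin M, (P (i + 1) - P i) = 1 := by
    rw [Fin.sum_univ_eq_sum_range (fun i => P (i + 1) - P i) M, Finset.sum_range_sub]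
    show pj (W M) - pj (W 0) = 1
    rw [hWM, hW0, pj_top, pj_bot, sub_zero]
  set PI : Matrix (Fin k) (Fin k) ℂ := ∑ i ∈ I, (P (i + 1) - P i) with hPI
  have hPIi : PI * PI = PI := proj_sum P hP hP' I
  have hPIh : PIᴴ = PI := by
    rw [hPI, conjTranspose_sum]
    exact Finset.sum_congr rfl fun i _ => by rw [conjTranspose_sub, pj_herm, pj_herm]
  obtain ⟨k', J, hJ1, hJ2⟩ := exists_iso PI hPIi hPIh
  refine ⟨k', J, hJ1, ?_, fun h => ?_, fun s hs => ?_⟩
  · have h1 := hI none
    have h2 : ∑ i ∈ I, v i none = k' := by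
      have h3 : trace PI = (k' : ℂ) := by
        rw [← hJ2, Matrix.trace_mul_comm, hJ1, Matrix.trace_one, Fintype.card_fin]
      rw [hPI, trace_sum] at h3
      have h4 := congrArg Complex.re h3
      rw [Complex.re_sum] at h4
      show ∑ i ∈ I, (trace (P (i + 1) - P i)).re = (k' : ℝ)
      rw [h4, Complex.natCast_re]
    have h3 : ∑ i, v i none = k := by
      have h4 : ∑ i : Fin M, trace (P (i + 1) - P i) = (k : ℂ) := by
        rw [← trace_sum, htel, Matrix.trace_one, Fintype.card_fin]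
      have h5 := congrArg Complex.re h4
      rw [Complex.re_sum] at h5
      show ∑ i : Fin M, (trace (P (i + 1) - P i)).re = (k : ℝ)
      rw [h5, Complex.natCast_re]
    rw [h2, h3] at h1
    have : (0 : ℝ) ≤ η * k := by positivity
    linarith
  · rw [hJ2]
    have h1 := hI (some (h, true))
    have h2 := hI (some (h, false))
    have e1 : trace ((ψ (f h)).1 * PI) = ∑ i ∈ I, trace ((ψ (f h)).1 * (P (i + 1) - P i)) := by
      rw [hPI, Finset.mul_sum, trace_sum]
    have e2 : trace (ψ (f h)).1 = ∑ i : Fin M, trace ((ψ (f h)).1 * (P (i + 1) - P i)) := by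
      rw [← trace_sum, ← Finset.mul_sum, htel, Matrix.mul_one]
    have r1 : ∑ i ∈ I, v i (some (h, true)) = (trace ((ψ (f h)).1 * PI)).re := by
      rw [e1, Complex.re_sum]
    have r2 : ∑ i, v i (some (h, true)) = (trace (ψ (f h)).1).re := by
      rw [e2, Complex.re_sum]
    have r3 : ∑ i ∈ I, v i (some (h, false)) = (trace ((ψ (f h)).1 * PI)).im := by
      rw [e1, Complex.im_sum]
    have r4 : ∑ i, v i (some (h, false)) = (trace (ψ (f h)).1).im := by
      rw [e2, Complex.im_sum]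
    rw [r1, r2] at h1
    rw [r3, r4] at h2
    refine (Complex.norm_le_abs_re_add_abs_im _).trans ?_
    rw [Complex.sub_re, Complex.sub_im, Complex.re_ofReal_mul, Complex.im_ofReal_mul]
    linarith
  · have hr : ∀ t ∈ S', ∀ i, ((1 - P i) * (ψ t).1 * P i).rank ≤ ⌊c * k⌋₊ := by
      intro t ht i
      refine rk_inv _ _ _ ?_
      have h1 := (hW i).1 t ht
      have h2 : (Module.finrank ℂ (W i) : ℝ) ≤ k := by
        have := Submodule.finrank_le (W i)
        rw [finrank_euclideanSpace, Fintype.card_fin] at this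
        exact_mod_cast this
      have h3 : Module.finrank ℂ (W i) ≤ Module.finrank ℂ (W i ⊔ (W i).map (ρ t) :
        Submodule ℂ (EuclideanSpace ℂ (Fin k))) := Submodule.finrank_mono le_sup_left
      have h4 : Module.finrank ℂ (W i ⊔ (W i).map (ρ t) :
        Submodule ℂ (EuclideanSpace ℂ (Fin k))) - Module.finrank ℂ (W i) ≤ ⌊c * k⌋₊ := by
        apply Nat.le_floor
        rw [Nat.cast_sub h3]
        have : c * (Module.finrank ℂ (W i) : ℝ) ≤ c * k := by gcongr
        linarith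
      show Module.finrank ℂ (W i ⊔ (W i).map (ρ t) :
        Submodule ℂ (EuclideanSpace ℂ (Fin k))) ≤ _
      omega
    have hcomm : ∀ i, ((ψ s).1 * P i - P i * (ψ s).1).rank ≤ 2 * ⌊c * k⌋₊ := by
      intro i
      refine rk_comm _ _ _ (hr s (hSS s hs) i) ?_
      rw [← Matrix.rank_conjTranspose, conjTranspose_mul, conjTranspose_mul, conjTranspose_sub,
        conjTranspose_one, pj_herm, ← rep_inv, ← Matrix.mul_assoc]
      exact hr s⁻¹ (hSi s hs) i
    have h1 : ((1 - J * Jᴴ) * (ψ s).1 * J).rank ≤ ((ψ s).1 * PI - PI * (ψ s).1).rank := by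
      rw [hJ2]
      refine le_trans ?_ (rk_off _ _ hPIi)
      have : (1 - PI) * (ψ s).1 * J = (1 - PI) * (ψ s).1 * PI * J := by
        rw [← hJ2, Matrix.mul_assoc _ (J * Jᴴ) J, Matrix.mul_assoc J, hJ1, Matrix.mul_one]
      rw [this]
      exact Matrix.rank_mul_le_left _ _
    have h2 : (ψ s).1 * PI - PI * (ψ s).1 = ∑ i ∈ I,
        (((ψ s).1 * P (i + 1) - P (i + 1) * (ψ s).1) - ((ψ s).1 * P i - P i * (ψ s).1)) := by
      rw [hPI, Finset.mul_sum, Finset.sum_mul, ← Finset.sum_sub_distrib]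
      refine Finset.sum_congr rfl fun i _ => ?_
      rw [Matrix.mul_sub, Matrix.sub_mul]
      abel
    have h3 : ((ψ s).1 * PI - PI * (ψ s).1).rank ≤ M * (4 * ⌊c * k⌋₊) := by
      rw [h2]
      refine (rk_sum _ _).trans ?_
      calc _ ≤ ∑ i ∈ I, 4 * ⌊c * k⌋₊ := Finset.sum_le_sum fun i _ => by
            refine (rk_sub _ _).trans ?_
            have e1 := hcomm (i + 1)
            have e2 := hcomm i
            omega
        _ = I.card * (4 * ⌊c * k⌋₊) := by rw [Finset.sum_const, smul_eq_mul]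
        _ ≤ M * (4 * ⌊c * k⌋₊) := by
            gcongr
            have := Finset.card_le_univ I
            rwa [Fintype.card_fin] at this
    have h4 : ((((1 - J * Jᴴ) * (ψ s).1 * J).rank : ℕ) : ℝ) ≤ (M : ℝ) * (4 * (c * k)) := by
      refine (Nat.cast_le.mpr (h1.trans h3)).trans ?_
      push_cast
      have := Nat.floor_le (show 0 ≤ c * (k : ℝ) by positivity)
      gcongr
    refine h4.trans ?_
    rw [hc]
    have : (M : ℝ) * (4 * (η / (8 * M) * k)) = η / 2 * k := by field_simp; ring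
    rw [this]
    have : (0 : ℝ) ≤ η * k := by positivity
    linarith

end Pool.Agent.H698R5
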