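import Pool.Agent.H698R5.CutH
import Pool.Agent.H698R4.StrictPermFinal
import Pool.Agent.H698R4.FxHs3

set_option autoImplicit false
set_option linter.unusedSectionVars false

/-! Subexponential growth implies amenability; sofic groups are hyperlinear. -/

namespace Pool.Agent.H698R5

open Filter Topology Matrix Pool.Agent.H698R3 Pool.Agent.H698R3.Amalg Pool.Agent.H698R4

open Classical in
theorem folner_of_growth {G : Type} [Group G] (hG : SubexpGrowth G) : Folner G := by
  intro S ε hε
  let S' : Finset G := S ∪ {1}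
  have hS1 : (1 : G) ∈ S' := Finset.mem_union_right _ (Finset.mem_singleton_self _)
  obtain ⟨n₀, hn₀⟩ := hG S' (1 + ε) (by linarith)
  change ((wd S' n₀).ncard : ℝ) < (1 + ε) ^ n₀ at hn₀
  have h0 : ((wd S' 0).ncard : ℝ) = 1 := by rw [wd_zero]; simp
  obtain ⟨n, hn⟩ : ∃ n, ((wd S' (n + 1)).ncard : ℝ) ≤ (1 + ε) * (wd S' n).ncard := by
    by_contra hcon
    push Not at hcon
    have h2 : ∀ n, (1 + ε) ^ n ≤ ((wd S' n).ncard : ℝ) := by
      intro n
      induction n with
      | zero => rw [pow_zero, h0]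
      | succ n ih =>
        have h4 := hcon n
        have h5 : (1 + ε) ^ (n + 1) = (1 + ε) * (1 + ε) ^ n := by ring
        have h6 : (1 + ε) * (1 + ε) ^ n ≤ (1 + ε) * ((wd S' n).ncard : ℝ) := by gcongr
        linarith
    exact absurd (h2 n₀) (not_le.mpr hn₀)
  have hfin := wd_finite S' n
  refine ⟨hfin.toFinset, ?_, fun s hs => ?_⟩
  · refine ⟨1, ?_⟩
    rw [Set.Finite.mem_toFinset]
    exact wd_mono S' hS1 (Nat.zero_le n) (by rw [wd_zero]; rfl)
  · have hsS : s ∈ S' := Finset.mem_union_left _ hs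
    have h1 : (fun g => s * g) '' {g : G | g ∈ hfin.toFinset ∧ s * g ∉ hfin.toFinset} ⊆
        wd S' (n + 1) \ wd S' n := by
      rintro _ ⟨g, ⟨g1, g2⟩, rfl⟩
      rw [Set.Finite.mem_toFinset] at g1 g2
      exact ⟨wd_succ S' hsS g1, g2⟩
    have h2 : Set.ncard {g : G | g ∈ hfin.toFinset ∧ s * g ∉ hfin.toFinset} ≤
        (wd S' (n + 1) \ wd S' n).ncard := by
      rw [← Set.ncard_image_of_injective _ (mul_right_injective s)]
      exact Set.ncard_le_ncard h1 ((wd_finite S' (n + 1)).subset Set.diff_subset)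
    have h3 := Set.ncard_diff_add_ncard_of_subset (wd_mono S' hS1 (Nat.le_succ n))
      (wd_finite S' (n + 1))
    have h4 : hfin.toFinset.card = (wd S' n).ncard := (Set.ncard_eq_toFinset_card _ hfin).symm
    rw [h4]
    have h5 : ((wd S' (n + 1) \ wd S' n).ncard : ℝ) + (wd S' n).ncard = (wd S' (n + 1)).ncard := by
      exact_mod_cast h3
    have h6 : (Set.ncard {g : G | g ∈ hfin.toFinset ∧ s * g ∉ hfin.toFinset} : ℝ) ≤
        (wd S' (n + 1) \ wd S' n).ncard := by exact_mod_cast h2
    linarith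

theorem fro_perm {Z : Type} [Fintype Z] [DecidableEq Z] (σ τ : Equiv.Perm Z) :
    fro ((permU σ).1 - (permU τ).1) =
      2 * ((Finset.univ.filter (fun x => σ x ≠ τ x)).card : ℝ) := by
  rw [permU_coe, permU_coe]
  unfold fro
  rw [Finset.sum_comm]
  have h1 : ∀ y, ∑ x, ‖(Jm (σ : Z → Z) - Jm (τ : Z → Z)) x y‖ ^ 2 =
      if σ y ≠ τ y then (2 : ℝ) else 0 := by
    intro y
    by_cases h : σ y = τ y
    · rw [if_neg (by simpa using h)]
      refine Finset.sum_eq_zero fun x _ => ?_
      rw [Matrix.sub_apply, Jm_apply, Jm_apply, h, sub_self]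
      simp
    · rw [if_pos h, ← Finset.sum_subset (Finset.subset_univ {σ y, τ y})]
      · rw [Finset.sum_pair h, Matrix.sub_apply, Matrix.sub_apply, Jm_apply, Jm_apply, Jm_apply,
          Jm_apply, if_pos rfl, if_neg h, if_neg (fun h' => h h'.symm), if_pos rfl]
        norm_num
      · intro x _ hx
        rw [Finset.mem_insert, Finset.mem_singleton, not_or] at hx
        rw [Matrix.sub_apply, Jm_apply, Jm_apply, if_neg hx.1, if_neg hx.2]
        simp
  rw [Finset.sum_congr rfl fun y _ => h1 y, ← Finset.sum_filter, Finset.sum_const, nsmul_eq_mul]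
  ring

theorem hs_perm {Z : Type} [Fintype Z] [DecidableEq Z] (σ τ : Equiv.Perm Z) :
    hsDist (permU σ).1 (permU τ).1 = Real.sqrt (2 * Stab.hammingDist σ τ) := by
  unfold hsDist
  rw [← fro_eq_re, fro_perm]
  unfold Stab.hammingDist
  congr 1
  ring

theorem hyperlinear_of_sofic {G : Type} [Group G] (h : Sofic G) : Hyperlinear G := by
  obtain ⟨k, φ, h1, h2⟩ := h
  refine ⟨k, fun n g => permU (φ n g), fun a b => ?_, fun g hg => ?_⟩
  · have h3 : Tendsto (fun n => Real.sqrt (2 * Stab.hammingDist (φ n a * φ n b) (φ n (a * b))))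
        atTop (𝓝 0) := by
      have h4 := (h1 a b).const_mul (2 : ℝ)
      rw [mul_zero] at h4
      have h5 := (Real.continuous_sqrt.tendsto 0).comp h4
      rw [Real.sqrt_zero] at h5
      exact h5
    refine h3.congr fun n => ?_
    rw [← map_mul, hs_perm]
  · obtain ⟨c, hc, hcn⟩ := h2 g hg
    refine ⟨Real.sqrt (2 * c), by positivity, hcn.mono fun n hn => ?_⟩
    have h3 : (1 : Matrix (Fin (k n)) (Fin (k n)) ℂ) = (permU (1 : Equiv.Perm (Fin (k n)))).1 := by
      rw [map_one]; rfl
    rw [h3, hs_perm]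
    exact Real.sqrt_le_sqrt (by linarith)

theorem hconjH {H : Type} [Group H] [Fintype H] : HConj (HH H) := by
  intro k u π
  change Matrix.unitaryGroup (Fin k) ℂ at u
  change H →* Matrix.unitaryGroup (Fin k) ℂ at π
  have key : ∀ h, trace (u.1 * (π h).1 * (u.1)ᴴ) = trace (π h).1 := by
    intro h
    rw [Matrix.trace_mul_comm, ← Matrix.mul_assoc, uh_mul, Matrix.one_mul]
  funext e
  obtain ⟨h, b⟩ := e
  cases b
  · show (trace (u.1 * (π h).1 * (u.1)ᴴ)).im = (trace (π h).1).im
    rw [key]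
  · show (trace (u.1 * (π h).1 * (u.1)ᴴ)).re = (trace (π h).1).re
    rw [key]

end Pool.Agent.H698R5
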