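import Pool.Agent.H698R5.PDHs
import Pool.Agent.H698R5.FinalHs

set_option autoImplicit false

/-! Amalgams over finite groups of Hilbert-Schmidt stable groups of subexponential growth. -/

namespace Pool.Agent.H698R5

open Filter Topology Matrix Pool.Agent.H698R3 Pool.Agent.H698R3.Amalg Pool.Agent.H698R4

theorem fg_tuple (G : Type) [Group G] [Group.FG G] :
    ∃ (ι : Type) (_ : Finite ι) (s : ι → G), Subgroup.closure (Set.range s) = ⊤ := by
  obtain ⟨S, hS, hfin⟩ := Group.fg_iff.mp ‹Group.FG G›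
  exact ⟨S, hfin, Subtype.val, by rw [Subtype.range_coe]; exact hS⟩

theorem countable_of_fg (G : Type) [Group G] [Group.FG G] : Countable G := by
  obtain ⟨ι, _, s, hs⟩ := fg_tuple G
  exact (lift_surj s hs).countable

theorem hsStable_amalg_subexp {G₁ G₂ H : Type} [Group G₁] [Group G₂] [Group H] [Group.FG G₁]
    [Group.FG G₂] [Finite H] (f₁ : H →* G₁) (f₂ : H →* G₂) (hf₁ : Function.Injective f₁)
    (hf₂ : Function.Injective f₂) (hg₁ : SubexpGrowth G₁) (hg₂ : SubexpGrowth G₂)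
    (hs₁ : HilbertSchmidtStable G₁) (hs₂ : HilbertSchmidtStable G₂) :
    HilbertSchmidtStable (AmalgProd f₁ f₂) := by
  have := Fintype.ofFinite H
  have := countable_of_fg G₁
  have := countable_of_fg G₂
  obtain ⟨ι₁, _, s₁, hc₁⟩ := fg_tuple G₁
  obtain ⟨ι₂, _, s₂, hc₂⟩ := fg_tuple G₂
  have hres : SameRes f₁ f₂ := sameRes_of f₁ f₂ hf₁ hf₂
    (not_killed_of_hyperlinear s₁ hc₁ (Or.inl hs₁)
      (hyperlinear_of_sofic (sofic_of_folner (folner_of_growth hg₁))))
    (not_killed_of_hyperlinear s₂ hc₂ (Or.inl hs₂)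
      (hyperlinear_of_sofic (sofic_of_folner (folner_of_growth hg₂))))
  rw [hsStable_iff] at hs₁ hs₂ ⊢
  exact stable_amalg_of_matching hsCls_metric
    (fun F₁ F₂ ε hε => strict_matching (O := opsH) hsCls_metric haddH hconjH
      (absorbH f₁ f₂ hres (killed_lin s₁ hc₁))
      (absorbH f₂ f₁ (fun h => (hres h).symm) (killed_lin s₂ hc₂))
      (PD_hs f₁ hg₁ hs₁) (PD_hs f₂ hg₂ hs₂) F₁ F₂ ε hε) hs₁ hs₂

end Pool.Agent.H698R5
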