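import Pool.Agent.H698R4.StrictAbs
import Pool.Agent.H698R3.AmMain

set_option autoImplicit false
set_option linter.unusedSectionVars false

/-! Strict matching when one of the two groups contains `H` in a finite normal subgroup. -/

namespace Pool.Agent.H698R5

open Filter Topology Pool.Agent.H698R3.Amalg Pool.Agent.H698R4

variable {𝒞 : Cls} {O : Ops 𝒞} {H G₁ G₂ : Type} [Group H] [Fintype H] [Group G₁] [Group G₂]
  {f₁ : H →* G₁} {f₂ : H →* G₂} {D : HData 𝒞 H}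

/-- rounding a multiple of the labels -/
theorem gdata_round (A₂ : GData 𝒞 f₂ D) (κ : ℝ) (hκ0 : 0 ≤ κ) (hκ1 : κ ≤ 1) (η : ℝ) (hη : 0 < η) :
    ∃ k₀ : ℕ, ∀ k ≥ k₀, ∀ ψ : G₂ →* 𝒞.C k, ∃ (m : ℕ) (_ : m ≤ k) (θ : G₂ →* 𝒞.C m),
      (m : ℝ) ≤ (1 - κ) * k ∧ |(m : ℝ) - (1 - κ) * k| ≤ η * k ∧
      (∀ e, |D.hv m (θ.comp f₂) e - (1 - κ) * D.hv k (ψ.comp f₂) e| ≤ η * k) ∧
      ∀ i, |(A₂.s m θ i : ℝ) - (1 - κ) * A₂.s k ψ i| ≤ η * k := by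
  classical
  have ha : ∀ t, ∃ a ∈ A₂.Siz t, a = 0 → ∀ x ∈ A₂.Siz t, x = 0 := by
    intro t
    by_cases h : ∃ a ∈ A₂.Siz t, a ≠ 0
    · obtain ⟨a, h1, h2⟩ := h
      exact ⟨a, h1, fun h3 => absurd h3 h2⟩
    · push Not at h
      exact ⟨0, (A₂.Siz t).zero_mem, fun _ x hx => h x hx⟩
  choose a ha1 ha2 using ha
  set C0 : ℝ := ∑ t, (a t : ℝ) with hC0
  have hC00 : 0 ≤ C0 := Finset.sum_nonneg fun t _ => Nat.cast_nonneg _
  have haC : ∀ t, (a t : ℝ) ≤ C0 := fun t =>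
    Finset.single_le_sum (f := fun t => (a t : ℝ)) (fun _ _ => Nat.cast_nonneg _) (Finset.mem_univ t)
  set C1 : ℝ := ∑ e, ∑ t, (a t : ℝ) * |A₂.ρ t e| with hC1
  have hC10 : 0 ≤ C1 := Finset.sum_nonneg fun e _ => Finset.sum_nonneg fun t _ => by positivity
  refine ⟨⌈(C0 + C1) / η⌉₊, fun k hk ψ => ?_⟩
  have hkη : C0 + C1 ≤ η * k := by
    have h2 := Nat.ceil_le.mp hk
    rw [div_le_iff₀ hη] at h2
    linarith
  let q : A₂.T → ℕ := fun t => a t * ⌊(1 - κ) * (A₂.s k ψ t : ℝ) / a t⌋₊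
  have hq1 : ∀ t, (q t : ℝ) ≤ (1 - κ) * A₂.s k ψ t := by
    intro t
    show ((a t * ⌊(1 - κ) * (A₂.s k ψ t : ℝ) / a t⌋₊ : ℕ) : ℝ) ≤ _
    have hnn : 0 ≤ (1 - κ) * (A₂.s k ψ t : ℝ) :=
      mul_nonneg (by linarith) (Nat.cast_nonneg _)
    push_cast
    rcases Nat.eq_zero_or_pos (a t) with h0 | h0
    · rw [h0, Nat.cast_zero, zero_mul]; exact hnn
    · have h1 : (0 : ℝ) < a t := by exact_mod_cast h0
      have h2 := Nat.floor_le (show 0 ≤ (1 - κ) * (A₂.s k ψ t : ℝ) / a t by positivity)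
      rw [le_div_iff₀ h1] at h2
      linarith
  have hq2 : ∀ t, (1 - κ) * A₂.s k ψ t - a t ≤ (q t : ℝ) := by
    intro t
    show _ ≤ ((a t * ⌊(1 - κ) * (A₂.s k ψ t : ℝ) / a t⌋₊ : ℕ) : ℝ)
    push_cast
    rcases Nat.eq_zero_or_pos (a t) with h0 | h0
    · have h1 := ha2 t h0 _ (A₂.mem k ψ t)
      rw [h0, h1]; simp
    · have h1 : (0 : ℝ) < a t := by exact_mod_cast h0
      have h2 := Nat.lt_floor_add_one ((1 - κ) * (A₂.s k ψ t : ℝ) / a t)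
      rw [div_lt_iff₀ h1] at h2
      linarith
  have hqS : ∀ t, q t ∈ A₂.Siz t := by
    intro t
    show a t * ⌊(1 - κ) * (A₂.s k ψ t : ℝ) / a t⌋₊ ∈ A₂.Siz t
    rw [mul_comm, ← smul_eq_mul]
    exact (A₂.Siz t).nsmul_mem (ha1 t) _
  obtain ⟨θ, hθ⟩ := A₂.real (∑ t, q t) q hqS rfl
  have hsk : (∑ t, (A₂.s k ψ t : ℝ)) = k := by exact_mod_cast A₂.sum k ψ
  have hm1 : ((∑ t, q t : ℕ) : ℝ) ≤ (1 - κ) * k := by
    rw [← hsk, Finset.mul_sum]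
    push_cast
    exact Finset.sum_le_sum fun t _ => hq1 t
  have hm2 : (1 - κ) * k - C0 ≤ ((∑ t, q t : ℕ) : ℝ) := by
    rw [← hsk, Finset.mul_sum, hC0, ← Finset.sum_sub_distrib]
    push_cast
    exact Finset.sum_le_sum fun t _ => hq2 t
  have hk0 : (0 : ℝ) ≤ k := Nat.cast_nonneg _
  have hqa : ∀ t, |(q t : ℝ) - (1 - κ) * A₂.s k ψ t| ≤ a t := by
    intro t
    have h1 := hq1 t
    have h2 := hq2 t
    have h3 : (0 : ℝ) ≤ a t := Nat.cast_nonneg _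
    rw [abs_le]
    constructor <;> linarith
  refine ⟨∑ t, q t, ?_, θ, hm1, ?_, fun e => ?_, fun i => ?_⟩
  · have : ((∑ t, q t : ℕ) : ℝ) ≤ k := by nlinarith
    exact_mod_cast this
  · rw [abs_le]
    have : 0 ≤ η * (k : ℝ) := by positivity
    constructor <;> linarith
  · rw [A₂.hv_eq, A₂.hv_eq, hθ, Finset.mul_sum, ← Finset.sum_sub_distrib]
    refine (Finset.abs_sum_le_sum_abs _ _).trans ?_
    have h1 : ∑ t, |(q t : ℝ) * A₂.ρ t e - (1 - κ) * ((A₂.s k ψ t : ℝ) * A₂.ρ t e)| ≤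
        ∑ t, (a t : ℝ) * |A₂.ρ t e| := by
      refine Finset.sum_le_sum fun t _ => ?_
      have h2 : (q t : ℝ) * A₂.ρ t e - (1 - κ) * ((A₂.s k ψ t : ℝ) * A₂.ρ t e) =
          ((q t : ℝ) - (1 - κ) * A₂.s k ψ t) * A₂.ρ t e := by ring
      rw [h2, abs_mul]
      exact mul_le_mul_of_nonneg_right (hqa t) (abs_nonneg _)
    have h2 : ∑ t, (a t : ℝ) * |A₂.ρ t e| ≤ C1 :=
      Finset.single_le_sum (f := fun e => ∑ t, (a t : ℝ) * |A₂.ρ t e|)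
        (fun e _ => Finset.sum_nonneg fun t _ => by positivity) (Finset.mem_univ e)
    linarith
  · rw [hθ]
    have h1 := hqa i
    have h2 := haC i
    linarith

theorem strict_matching_mixed (A₂ : GData 𝒞 f₂ D) (hm : 𝒞.IsMetric) (hD : HAdd O D) (hC : HConj D)
    (h12 : Absorb f₁ f₂ D) (h21 : Absorb f₂ f₁ D) (P₁ : PD O f₁ D)
    (F₁ : Finset G₁) (F₂ : Finset G₂) (ε : ℝ) (hε : 0 < ε) :
    ∃ δ : ℝ, 0 < δ ∧ ∀ k (ψ₁ : G₁ →* 𝒞.C k) (ψ₂ : G₂ →* 𝒞.C k),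
      (∀ h, 𝒞.d k (ψ₁ (f₁ h)) (ψ₂ (f₂ h)) ≤ δ) →
      ∃ (θ₁ : G₁ →* 𝒞.C k) (θ₂ : G₂ →* 𝒞.C k), (∀ h, θ₁ (f₁ h) = θ₂ (f₂ h)) ∧
        (∀ g ∈ F₁, 𝒞.d k (θ₁ g) (ψ₁ g) ≤ ε) ∧ (∀ g ∈ F₂, 𝒞.d k (θ₂ g) (ψ₂ g) ≤ ε) := by
  classical
  obtain ⟨C, hCpos, hcost⟩ := linear_cost (Rp f₁ f₂ D) Rp_zero (Rp_add hD) (Rp_neg hD h12 h21)
    D.c D.hc Rp_disc
  obtain ⟨δm, hδm, hmt⟩ := D.mtch (ε / 4) (by linarith)
  -- constants
  set ε' : ℝ := min (ε / 8) (δm / 8) with hε'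
  have hε'0 : 0 < ε' := lt_min (by linarith) (by linarith)
  have hε'1 : ε' ≤ ε / 8 := min_le_left _ _
  have hε'2 : ε' ≤ δm / 8 := min_le_right _ _
  set lam : ℝ := min (ε / 16) (δm / 16) with hlam
  have hlam0 : 0 < lam := lt_min (by linarith) (by linarith)
  have hlam1 : lam ≤ ε / 16 := min_le_left _ _
  have hlam2 : lam ≤ δm / 16 := min_le_right _ _
  obtain ⟨κ₁, hκ₁, hP₁⟩ := P₁ (F₁ ∪ Finset.univ.image f₁) ε' hε'0
  obtain ⟨ηa, hηa, La, hadj⟩ := A₂.adjust (F₂ ∪ Finset.univ.image f₂) ε' hε'0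
  set κ₂ : ℝ := ηa / 8 with hκ₂d
  have hκ₂ : 0 < κ₂ := by rw [hκ₂d]; linarith
  have hP₂ := gdata_round A₂
  set κ : ℝ := min (min κ₁ κ₂) (min (1 / 4) (lam ^ 2 / 2)) with hκ
  have hκ0 : 0 < κ := lt_min (lt_min hκ₁ hκ₂) (lt_min (by norm_num) (by positivity))
  have hκa : κ ≤ κ₁ := (min_le_left _ _).trans (min_le_left _ _)
  have hκb : κ ≤ κ₂ := (min_le_left _ _).trans (min_le_right _ _)
  have hκc : κ ≤ 1 / 4 := (min_le_right _ _).trans (min_le_left _ _)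
  have hκd : κ ≤ lam ^ 2 / 2 := (min_le_right _ _).trans (min_le_right _ _)
  set T : ℝ := ∑ e, |D.hv 1 1 e| with hT
  have hT0 : 0 ≤ T := Finset.sum_nonneg fun e _ => abs_nonneg _
  have hTe : ∀ e, |D.hv 1 1 e| ≤ T := fun e =>
    Finset.single_le_sum (f := fun e => |D.hv 1 1 e|) (fun e _ => abs_nonneg _) (Finset.mem_univ e)
  set η : ℝ := min (1 / 4) (κ / (C * (3 + 2 * T))) with hη
  have hη0 : 0 < η := lt_min (by norm_num) (by positivity)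
  have hη1 : η ≤ 1 / 4 := min_le_left _ _
  have hη2 : η ≤ κ / (C * (3 + 2 * T)) := min_le_right _ _
  have hη3 : C * ((3 + 2 * T) * η) ≤ κ := by
    rw [le_div_iff₀ (by positivity)] at hη2
    linarith
  obtain ⟨k₁, hk₁⟩ := hP₁ κ hκ0 hκa η hη0
  obtain ⟨k₂', hk₂'⟩ := hP₂ κ hκ0.le (by linarith) (min η (ηa / 8)) (lt_min hη0 (by linarith))
  set k₂ : ℕ := max k₂' La with hk₂d
  obtain ⟨δc, hδc, hcl⟩ := D.close η hη0
  obtain ⟨δs, hδs, hcs⟩ := D.close (D.c / (2 * ((k₁ : ℝ) + k₂ + 1))) (by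
    have := D.hc
    positivity)
  refine ⟨min (min δc δs) (δm / 4), lt_min (lt_min hδc hδs) (by linarith), ?_⟩
  intro k ψ₁ ψ₂ hclose
  have hcl1 : ∀ h, 𝒞.d k (ψ₁ (f₁ h)) (ψ₂ (f₂ h)) ≤ δc := fun h =>
    (hclose h).trans ((min_le_left _ _).trans (min_le_left _ _))
  have hcl2 : ∀ h, 𝒞.d k (ψ₁ (f₁ h)) (ψ₂ (f₂ h)) ≤ δs := fun h =>
    (hclose h).trans ((min_le_left _ _).trans (min_le_right _ _))
  have hcl3 : ∀ h, 𝒞.d k (ψ₁ (f₁ h)) (ψ₂ (f₂ h)) ≤ δm / 4 := fun h =>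
    (hclose h).trans (min_le_right _ _)
  by_cases hk : k < k₁ + k₂ + 1
  · -- small `k`
    have heq := D.disc k (ψ₁.comp f₁) (ψ₂.comp f₂) (fun e => by
      refine (hcs k _ _ hcl2 e).trans_lt ?_
      have h1 : (k : ℝ) < (k₁ : ℝ) + k₂ + 1 := by exact_mod_cast hk
      have h2 : (0 : ℝ) < (k₁ : ℝ) + k₂ + 1 := by positivity
      have h3 := D.hc
      calc D.c / (2 * ((k₁ : ℝ) + k₂ + 1)) * k ≤
            D.c / (2 * ((k₁ : ℝ) + k₂ + 1)) * ((k₁ : ℝ) + k₂ + 1) := by gcongr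
        _ = D.c / 2 := by field_simp
        _ < D.c := by linarith)
    obtain ⟨u, hu1, hu2⟩ := hmt k (ψ₁.comp f₁) (ψ₂.comp f₂) heq (fun h => by
      have := hcl3 h
      show 𝒞.d k (ψ₁ (f₁ h)) (ψ₂ (f₂ h)) ≤ δm
      linarith)
    refine ⟨ψ₁, (MulAut.conj u).toMonoidHom.comp ψ₂, fun h => (hu2 h).symm, fun g _ => ?_,
      fun g _ => ?_⟩
    · rw [hm.self]; exact hε.le
    · have h1 := hm.conj k u (ψ₂ g)
      show 𝒞.d k (u * ψ₂ g * u⁻¹) (ψ₂ g) ≤ ε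
      linarith
  · -- large `k`
    push Not at hk
    obtain ⟨m₁, hm₁, θ₁, u₁, a1, a2, a3, a4⟩ := hk₁ k (by omega) ψ₁
    have hkLa : La ≤ k := by
      have : La ≤ k₂ := le_max_right _ _
      omega
    have hkk₂ : k₂' ≤ k := by
      have : k₂' ≤ k₂ := le_max_left _ _
      omega
    obtain ⟨m₂, hm₂, θ₂, b1, b2', b3', b5'⟩ := hk₂' k hkk₂ ψ₂
    have hmη : min η (ηa / 8) * (k : ℝ) ≤ η * k := by
      have : (0 : ℝ) ≤ k := Nat.cast_nonneg _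
      have := min_le_left η (ηa / 8)
      gcongr
    have hmη' : min η (ηa / 8) * (k : ℝ) ≤ ηa / 8 * k := by
      have : (0 : ℝ) ≤ k := Nat.cast_nonneg _
      have := min_le_right η (ηa / 8)
      gcongr
    have b2 : |(m₂ : ℝ) - (1 - κ) * k| ≤ η * k := b2'.trans hmη
    have b3 : ∀ e, |D.hv m₂ (θ₂.comp f₂) e - (1 - κ) * D.hv k (ψ₂.comp f₂) e| ≤ η * k :=
      fun e => (b3' e).trans hmη
    have hkpos : (0 : ℝ) < k := by
      have : 0 < k := by omega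
      exact_mod_cast this
    -- type difference
    set v : D.E → ℝ := fun e => D.hv k (((O.ex hm₁).comp θ₁).comp f₁) e -
      D.hv k (((O.ex hm₂).comp θ₂).comp f₂) e with hv
    have hRv : Rp f₁ f₂ D v k := ⟨(O.ex hm₁).comp θ₁, (O.ex hm₂).comp θ₂, fun e => rfl⟩
    have e1 : ∀ e, D.hv k (((O.ex hm₁).comp θ₁).comp f₁) e =
        D.hv m₁ (θ₁.comp f₁) e + ((k : ℝ) - m₁) * D.hv 1 1 e := fun e =>
      hv_ex hD hm₁ (θ₁.comp f₁) e
    have e2 : ∀ e, D.hv k (((O.ex hm₂).comp θ₂).comp f₂) e =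
        D.hv m₂ (θ₂.comp f₂) e + ((k : ℝ) - m₂) * D.hv 1 1 e := fun e =>
      hv_ex hD hm₂ (θ₂.comp f₂) e
    have hvn : ‖v‖ ≤ (3 + 2 * T) * η * k := by
      rw [pi_norm_le_iff_of_nonneg (by positivity)]
      intro e
      rw [Real.norm_eq_abs]
      have h1 := a3 e
      have h2 := b3 e
      have h3 := hcl k (ψ₁.comp f₁) (ψ₂.comp f₂) hcl1 e
      have h4 : v e = (D.hv m₁ (θ₁.comp f₁) e - (1 - κ) * D.hv k (ψ₁.comp f₁) e) +
          (1 - κ) * (D.hv k (ψ₁.comp f₁) e - D.hv k (ψ₂.comp f₂) e) -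
          (D.hv m₂ (θ₂.comp f₂) e - (1 - κ) * D.hv k (ψ₂.comp f₂) e) -
          (((m₁ : ℝ) - (1 - κ) * k) - ((m₂ : ℝ) - (1 - κ) * k)) * D.hv 1 1 e := by
        show _ - _ = _
        rw [e1, e2]
        ring
      rw [h4]
      have g1 := abs_sub ((D.hv m₁ (θ₁.comp f₁) e - (1 - κ) * D.hv k (ψ₁.comp f₁) e) +
          (1 - κ) * (D.hv k (ψ₁.comp f₁) e - D.hv k (ψ₂.comp f₂) e) -
          (D.hv m₂ (θ₂.comp f₂) e - (1 - κ) * D.hv k (ψ₂.comp f₂) e))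
          ((((m₁ : ℝ) - (1 - κ) * k) - ((m₂ : ℝ) - (1 - κ) * k)) * D.hv 1 1 e)
      have g2 := abs_sub ((D.hv m₁ (θ₁.comp f₁) e - (1 - κ) * D.hv k (ψ₁.comp f₁) e) +
          (1 - κ) * (D.hv k (ψ₁.comp f₁) e - D.hv k (ψ₂.comp f₂) e))
          (D.hv m₂ (θ₂.comp f₂) e - (1 - κ) * D.hv k (ψ₂.comp f₂) e)
      have g3 := abs_add_le (D.hv m₁ (θ₁.comp f₁) e - (1 - κ) * D.hv k (ψ₁.comp f₁) e)
          ((1 - κ) * (D.hv k (ψ₁.comp f₁) e - D.hv k (ψ₂.comp f₂) e))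
      have g4 : |(1 - κ) * (D.hv k (ψ₁.comp f₁) e - D.hv k (ψ₂.comp f₂) e)| ≤ η * k := by
        rw [abs_mul, abs_of_nonneg (show (0 : ℝ) ≤ 1 - κ by linarith)]
        calc (1 - κ) * |D.hv k (ψ₁.comp f₁) e - D.hv k (ψ₂.comp f₂) e| ≤
              1 * |D.hv k (ψ₁.comp f₁) e - D.hv k (ψ₂.comp f₂) e| := by gcongr; linarith
          _ ≤ η * k := by rw [one_mul]; exact h3
      have g5 : |(((m₁ : ℝ) - (1 - κ) * k) - ((m₂ : ℝ) - (1 - κ) * k)) * D.hv 1 1 e| ≤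
          2 * η * k * T := by
        rw [abs_mul]
        have g6 := abs_sub ((m₁ : ℝ) - (1 - κ) * k) ((m₂ : ℝ) - (1 - κ) * k)
        have g7 : |((m₁ : ℝ) - (1 - κ) * k) - ((m₂ : ℝ) - (1 - κ) * k)| ≤ 2 * η * k := by linarith
        exact mul_le_mul g7 (hTe e) (abs_nonneg _) (by positivity)
      nlinarith
    obtain ⟨k', hk'⟩ := Rp_neg hD h12 h21 v k hRv
    obtain ⟨l, hl, s₁, s₂, hs⟩ := hcost (-v) k' hk'
    have hl' : (l : ℝ) ≤ κ * k := by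
      rw [norm_neg] at hl
      calc (l : ℝ) ≤ C * ‖v‖ := hl
        _ ≤ C * ((3 + 2 * T) * η * k) := by gcongr
        _ = C * ((3 + 2 * T) * η) * k := by ring
        _ ≤ κ * k := by gcongr
    have hle1 : m₁ + l ≤ k := by
      have : ((m₁ + l : ℕ) : ℝ) ≤ k := by push_cast; linarith
      exact_mod_cast this
    have hle2 : m₂ + l ≤ k := by
      have : ((m₂ + l : ℕ) : ℝ) ≤ k := by push_cast; linarith
      exact_mod_cast this
    let ρ₁ : G₁ →* 𝒞.C k := (MulAut.conj u₁).toMonoidHom.comp ((O.ex hle1).comp (O.sm θ₁ s₁))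
    let tt : A₂.T → ℕ := fun i => A₂.s m₂ θ₂ i + A₂.s l s₂ i +
      (Pi.single A₂.triv (k - m₂ - l) : A₂.T → ℕ) i
    obtain ⟨ρ₂, hρ₂s, hρ₂c⟩ := hadj k hkLa ψ₂ tt
      (fun i => (A₂.Siz i).add_mem ((A₂.Siz i).add_mem (A₂.mem m₂ θ₂ i) (A₂.mem l s₂ i)) (by
        by_cases hi : i = A₂.triv
        · subst hi
          rw [Pi.single_eq_same]
          have := (A₂.Siz A₂.triv).nsmul_mem A₂.triv_mem (k - m₂ - l)
          simpa using this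
        · rw [Pi.single_eq_of_ne hi]; exact (A₂.Siz i).zero_mem))
      (by
        show ∑ i, (A₂.s m₂ θ₂ i + A₂.s l s₂ i +
          (Pi.single A₂.triv (k - m₂ - l) : A₂.T → ℕ) i) = k
        rw [Finset.sum_add_distrib, Finset.sum_add_distrib, A₂.sum, A₂.sum,
          Finset.sum_pi_single']
        simp only [Finset.mem_univ, if_true]
        omega)
      (by
        intro i
        have c1 := b5' i
        have c2 : (A₂.s l s₂ i : ℝ) ≤ l := by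
          have h1 := A₂.sum l s₂
          have h2 : A₂.s l s₂ i ≤ ∑ t, A₂.s l s₂ t :=
            Finset.single_le_sum (fun _ _ => Nat.zero_le _) (Finset.mem_univ i)
          exact_mod_cast h2.trans_eq h1
        have c3 : ((Pi.single A₂.triv (k - m₂ - l) : A₂.T → ℕ) i : ℝ) ≤ k - m₂ := by
          have h1 : (Pi.single A₂.triv (k - m₂ - l) : A₂.T → ℕ) i ≤ k - m₂ := by
            by_cases hi : i = A₂.triv
            · subst hi; rw [Pi.single_eq_same]; omega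
            · rw [Pi.single_eq_of_ne hi]; exact Nat.zero_le _
          have h2 : ((k - m₂ : ℕ) : ℝ) = (k : ℝ) - m₂ := Nat.cast_sub hm₂
          rw [← h2]
          exact_mod_cast h1
        have c4 : (A₂.s k ψ₂ i : ℝ) ≤ k := by
          have h1 := A₂.sum k ψ₂
          have h2 : A₂.s k ψ₂ i ≤ ∑ t, A₂.s k ψ₂ t :=
            Finset.single_le_sum (fun _ _ => Nat.zero_le _) (Finset.mem_univ i)
          exact_mod_cast h2.trans_eq h1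
        have c5 : (0 : ℝ) ≤ A₂.s l s₂ i := Nat.cast_nonneg _
        have c6 : (0 : ℝ) ≤ ((Pi.single A₂.triv (k - m₂ - l) : A₂.T → ℕ) i : ℝ) :=
          Nat.cast_nonneg _
        have c7 := (abs_le.mp c1).1
        have c8 := (abs_le.mp c1).2
        have c9 : κ * (A₂.s k ψ₂ i : ℝ) ≤ κ * k := by gcongr
        have c10 : 0 ≤ κ * (A₂.s k ψ₂ i : ℝ) := by positivity
        have c11 := (abs_le.mp b2').1
        have c12 : κ * (k : ℝ) ≤ ηa / 8 * k := by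
          have : κ ≤ ηa / 8 := hκb
          gcongr
        have c13 : (0 : ℝ) ≤ ηa * k := by positivity
        show |((A₂.s m₂ θ₂ i + A₂.s l s₂ i +
          (Pi.single A₂.triv (k - m₂ - l) : A₂.T → ℕ) i : ℕ) : ℝ) - A₂.s k ψ₂ i| ≤ ηa * k
        push_cast
        rw [abs_le]
        constructor <;> linarith)
    have htype : D.hv k (ρ₁.comp f₁) = D.hv k (ρ₂.comp f₂) := by
      have t1 : D.hv k (ρ₁.comp f₁) = D.hv k ((O.ex hle1).comp (O.sm (θ₁.comp f₁) (s₁.comp f₁))) :=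
        hC k u₁ ((O.ex hle1).comp (O.sm (θ₁.comp f₁) (s₁.comp f₁)))
      have t2 : D.hv k (ρ₂.comp f₂) = D.hv k ((O.ex hle2).comp (O.sm (θ₂.comp f₂) (s₂.comp f₂))) := by
        funext e
        rw [hv_ex hD, hD, A₂.hv_eq, A₂.hv_eq, A₂.hv_eq, hρ₂s, ← A₂.triv_rho]
        show ∑ i, ((A₂.s m₂ θ₂ i + A₂.s l s₂ i +
          (Pi.single A₂.triv (k - m₂ - l) : A₂.T → ℕ) i : ℕ) : ℝ) * A₂.ρ i e = _
        have h1 : ∑ i, ((Pi.single A₂.triv (k - m₂ - l) : A₂.T → ℕ) i : ℝ) * A₂.ρ i e =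
            ((k - m₂ - l : ℕ) : ℝ) * A₂.ρ A₂.triv e := by
          rw [Finset.sum_eq_single A₂.triv]
          · rw [Pi.single_eq_same]
          · intro i _ hi
            rw [Pi.single_eq_of_ne hi, Nat.cast_zero, zero_mul]
          · intro h; exact absurd (Finset.mem_univ _) h
        have h2 : ((k - m₂ - l : ℕ) : ℝ) = (k : ℝ) - ((m₂ + l : ℕ) : ℝ) := by
          rw [Nat.sub_sub, Nat.cast_sub hle2]
        rw [← h2, ← h1, ← Finset.sum_add_distrib, ← Finset.sum_add_distrib]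
        refine Finset.sum_congr rfl fun i _ => ?_
        push_cast
        ring
      rw [t1, t2]
      funext e
      rw [hv_ex hD, hv_ex hD, hD, hD]
      have h1 := hs e
      have h2 : v e = D.hv k (((O.ex hm₁).comp θ₁).comp f₁) e -
        D.hv k (((O.ex hm₂).comp θ₂).comp f₂) e := rfl
      rw [e1, e2] at h2
      rw [Pi.neg_apply] at h1
      push_cast
      linarith
    -- closeness
    have hhalf1 : (k : ℝ) ≤ 2 * m₁ := by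
      have := (abs_le.mp a2).1
      nlinarith
    have hlm1 : (l : ℝ) ≤ lam ^ 2 * m₁ := by
      calc (l : ℝ) ≤ κ * k := hl'
        _ ≤ lam ^ 2 / 2 * (2 * m₁) := by gcongr
        _ = lam ^ 2 * m₁ := by ring
    have hcl₁ : ∀ g ∈ F₁ ∪ Finset.univ.image f₁, 𝒞.d k (ρ₁ g) (ψ₁ g) ≤ 2 * lam + ε' := by
      intro g hg
      have h1 := a4 g hg
      have h2 := ds_small (O := O) hm m₁ l (θ₁ g) (s₁ g) 1 lam hlam0.le hlm1
      have h3 := O.ex_d hle1 (O.ds m₁ l (θ₁ g, s₁ g)) (O.ds m₁ l (θ₁ g, 1))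
      have h4 : O.ex hle1 (O.ds m₁ l (θ₁ g, 1)) = O.ex hm₁ (θ₁ g) := by
        rw [O.ds_ex, O.ex_ex]
      rw [h4] at h3
      have h5 : 𝒞.d k (u₁ * O.ex hle1 (O.ds m₁ l (θ₁ g, s₁ g)) * u₁⁻¹)
          (u₁ * O.ex hm₁ (θ₁ g) * u₁⁻¹) = 𝒞.d k (O.ex hle1 (O.ds m₁ l (θ₁ g, s₁ g)))
          (O.ex hm₁ (θ₁ g)) := by
        rw [hm.right, hm.left]
      have h6 := hm.tri k (u₁ * O.ex hle1 (O.ds m₁ l (θ₁ g, s₁ g)) * u₁⁻¹)
        (u₁ * O.ex hm₁ (θ₁ g) * u₁⁻¹) (ψ₁ g)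
      show 𝒞.d k (u₁ * O.ex hle1 (O.ds m₁ l (θ₁ g, s₁ g)) * u₁⁻¹) (ψ₁ g) ≤ _
      linarith
    have hcl₂ : ∀ g ∈ F₂ ∪ Finset.univ.image f₂, 𝒞.d k (ρ₂ g) (ψ₂ g) ≤ 2 * lam + ε' := by
      intro g hg
      have := hρ₂c g hg
      linarith
    obtain ⟨w, hw1, hw2⟩ := hmt k (ρ₁.comp f₁) (ρ₂.comp f₂) htype (by
      intro h
      have h1 := hcl₁ (f₁ h) (Finset.mem_union_right _ (Finset.mem_image_of_mem _ (Finset.mem_univ h)))
      have h2 := hcl₂ (f₂ h) (Finset.mem_union_right _ (Finset.mem_image_of_mem _ (Finset.mem_univ h)))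
      have h3 := hcl3 h
      have h4 := hm.tri k (ρ₁ (f₁ h)) (ψ₁ (f₁ h)) (ρ₂ (f₂ h))
      have h5 := hm.tri k (ψ₁ (f₁ h)) (ψ₂ (f₂ h)) (ρ₂ (f₂ h))
      rw [hm.symm k (ψ₂ (f₂ h)) (ρ₂ (f₂ h))] at h5
      show 𝒞.d k (ρ₁ (f₁ h)) (ρ₂ (f₂ h)) ≤ δm
      linarith)
    refine ⟨ρ₁, (MulAut.conj w).toMonoidHom.comp ρ₂, fun h => (hw2 h).symm, fun g hg => ?_,
      fun g hg => ?_⟩
    · have := hcl₁ g (Finset.mem_union_left _ hg)
      linarith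
    · have h1 := hm.conj k w (ρ₂ g)
      have h2 := hcl₂ g (Finset.mem_union_left _ hg)
      have h3 := hm.tri k (w * ρ₂ g * w⁻¹) (ρ₂ g) (ψ₂ g)
      show 𝒞.d k (w * ρ₂ g * w⁻¹) (ψ₂ g) ≤ ε
      linarith


end Pool.Agent.H698R5
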