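import Pool.Agent.H698R5.HsMain
import Pool.Agent.H698R5.Mixed

set_option autoImplicit false

/-! Amalgams over a finite group which is almost normal on one side, the other side being amenable
(permutations) or of subexponential growth (Hilbert-Schmidt). -/

namespace Pool.Agent.H698R5

open Filter Topology Matrix Pool.Agent.H698R3 Pool.Agent.H698R3.Amalg Pool.Agent.H698R4

theorem permStable_amalg_mixed {G₁ G₂ H : Type} [Group G₁] [Group G₂] [Group H] [Countable G₁]
    [Countable G₂] [Finite H] (f₁ : H →* G₁) (f₂ : H →* G₂) (hf₁ : Function.Injective f₁)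
    (hf₂ : Function.Injective f₂) (ha₁ : Folner G₁) (hn₂ : AlmostNormal f₂.range)
    (hsof₂ : Sofic G₂) (hs₁ : PermutationStable G₁) (hs₂ : PermutationStable G₂) :
    PermutationStable (AmalgProd f₁ f₂) := by
  have := Fintype.ofFinite H
  have hr₂ : Finite f₂.range := Finite.of_surjective f₂.rangeRestrict f₂.rangeRestrict_surjective
  obtain ⟨N₂, _, _, hN₂⟩ := exists_finite_normal f₂.range hn₂
  have hres : SameRes f₁ f₂ := sameRes_of f₁ f₂ hf₁ hf₂ (not_killed_of_folner ha₁ hs₁)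
    (not_killed_of_sofic (id : G₂ → G₂) (by rw [Set.range_id]; exact Subgroup.closure_univ)
      (Or.inl hs₂) hsof₂)
  rw [permStable_iff] at hs₁ hs₂ ⊢
  exact stable_amalg_of_matching permCls_metric
    (fun F₁ F₂ ε hε => strict_matching_mixed (O := opsP)
      (GP f₂ N₂ hs₂ (fun h => hN₂ ⟨h, rfl⟩)) permCls_metric haddP hconjP
      (absorbP f₁ f₂ hres) (absorbP f₂ f₁ fun h => (hres h).symm)
      (PD_perm f₁ ha₁ hs₁) F₁ F₂ ε hε) hs₁ hs₂

theorem hsStable_amalg_mixed {G₁ G₂ H : Type} [Group G₁] [Group G₂] [Group H] [Group.FG G₁]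
    [Group.FG G₂] [Finite H] (f₁ : H →* G₁) (f₂ : H →* G₂) (hf₁ : Function.Injective f₁)
    (hf₂ : Function.Injective f₂) (hg₁ : SubexpGrowth G₁) (hn₂ : AlmostNormal f₂.range)
    (hyp₂ : Hyperlinear G₂) (hs₁ : HilbertSchmidtStable G₁) (hs₂ : HilbertSchmidtStable G₂) :
    HilbertSchmidtStable (AmalgProd f₁ f₂) := by
  have := Fintype.ofFinite H
  have := countable_of_fg G₁
  have := countable_of_fg G₂
  obtain ⟨ι₁, _, s₁, hc₁⟩ := fg_tuple G₁
  obtain ⟨ι₂, _, s₂, hc₂⟩ := fg_tuple G₂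
  have hr₂ : Finite f₂.range := Finite.of_surjective f₂.rangeRestrict f₂.rangeRestrict_surjective
  obtain ⟨N₂, _, _, hN₂⟩ := exists_finite_normal f₂.range hn₂
  have hres : SameRes f₁ f₂ := sameRes_of f₁ f₂ hf₁ hf₂
    (not_killed_of_hyperlinear s₁ hc₁ (Or.inl hs₁)
      (hyperlinear_of_sofic (sofic_of_folner (folner_of_growth hg₁))))
    (not_killed_of_hyperlinear s₂ hc₂ (Or.inl hs₂) hyp₂)
  rw [hsStable_iff] at hs₁ hs₂ ⊢
  exact stable_amalg_of_matching hsCls_metric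
    (fun F₁ F₂ ε hε => strict_matching_mixed (O := opsH)
      (GH f₂ N₂ hs₂ (fun h => hN₂ ⟨h, rfl⟩)) hsCls_metric haddH hconjH
      (absorbH f₁ f₂ hres (killed_lin s₁ hc₁))
      (absorbH f₂ f₁ (fun h => (hres h).symm) (killed_lin s₂ hc₂))
      (PD_hs f₁ hg₁ hs₁) F₁ F₂ ε hε) hs₁ hs₂

end Pool.Agent.H698R5
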