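import Pool.Agent.H698R5.CutH
import Pool.Agent.H698R4.StrictAbs

set_option autoImplicit false
set_option linter.unusedSectionVars false

/-! Proportional deletion for Hilbert-Schmidt stable groups of subexponential growth. -/

namespace Pool.Agent.H698R5

open Filter Topology Matrix WithLp Pool.Agent.H698R3 Pool.Agent.H698R3.Amalg Pool.Agent.H698R4

theorem fro_compl {k k' : ℕ} (J : Matrix (Fin k) (Fin k') ℂ) (hJ : Jᴴ * J = 1) :
    fro (1 - J * Jᴴ) = (k : ℝ) - k' := by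
  have h2 : (1 - J * Jᴴ)ᴴ * (1 - J * Jᴴ) = 1 - J * Jᴴ := by
    rw [conjTranspose_sub, conjTranspose_one, conjTranspose_mul, conjTranspose_conjTranspose]
    have h3 : J * Jᴴ * (J * Jᴴ) = J * Jᴴ := by
      rw [Matrix.mul_assoc, ← Matrix.mul_assoc Jᴴ, hJ, Matrix.one_mul]
    rw [Matrix.sub_mul, Matrix.mul_sub, Matrix.mul_sub, h3]
    simp
  rw [fro_eq_re, h2, trace_sub, Matrix.trace_mul_comm, hJ, Matrix.trace_one, Matrix.trace_one,
    Fintype.card_fin, Fintype.card_fin]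
  simp

theorem tr_unit {k : ℕ} (U : Matrix.unitaryGroup (Fin k) ℂ) : ‖trace U.1‖ ≤ k := by
  have h := trace_le_rank U (1 : Matrix (Fin k) (Fin k) ℂ) (by simp)
  simpa using h

open Classical in
theorem PD_hs {G H : Type} [Group G] [Group H] [Fintype H] [Countable G] (f : H →* G)
    (hG : SubexpGrowth G) (hst : hsCls.Stable G) : PD opsH f (HH H) := by
  intro F ε hε
  refine ⟨min (ε ^ 2 / 64) (1 / 4), lt_min (by positivity) (by norm_num), ?_⟩
  intro κ hκ0 hκ η hη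
  have hκ1 : κ ≤ ε ^ 2 / 64 := hκ.trans (min_le_left _ _)
  have hκ2 : κ ≤ 1 / 4 := hκ.trans (min_le_right _ _)
  set η₁ : ℝ := min η κ with hη₁
  have hη₁0 : 0 < η₁ := lt_min hη hκ0
  have hη₁a : η₁ ≤ η := min_le_left _ _
  have hη₁b : η₁ ≤ κ := min_le_right _ _
  by_contra hcon
  push Not at hcon
  choose k hk ψ hbad using hcon
  change ∀ n, G →* Matrix.unitaryGroup (Fin (k n)) ℂ at ψ
  obtain ⟨en, hen⟩ := exists_surjective_nat G
  set lam : ℝ := 1 - κ - η₁ / 2 with hlam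
  have hlam1 : 5 / 8 ≤ lam := by rw [hlam]; linarith
  have hlam2 : lam ≤ 1 := by rw [hlam]; linarith
  have hktend : Tendsto k atTop atTop := tendsto_atTop_mono hk tendsto_id
  let A : ℕ → ℕ → Prop := fun j n => ∃ (k' : ℕ) (J : Matrix (Fin (k n)) (Fin k') ℂ), 0 < j →
    (Jᴴ * J = 1 ∧ |(k' : ℝ) - lam * k n| ≤ 1 / ((j : ℝ) + 1) * k n ∧
      (∀ h : H, ‖trace ((ψ n (f h)).1 * (J * Jᴴ)) - lam * trace (ψ n (f h)).1‖ ≤
        1 / ((j : ℝ) + 1) * k n) ∧
      ∀ i < j, ((((1 - J * Jᴴ) * (ψ n (en i)).1 * J).rank : ℕ) : ℝ) ≤ 1 / ((j : ℝ) + 1) * k n)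
  obtain ⟨jj, hjj1, hjj2⟩ := diag A (fun n => ⟨0, 0, fun h => absurd h (lt_irrefl 0)⟩)
    (by
      intro j
      obtain ⟨k₀, hk₀⟩ := cutH f hG ((Finset.range j).image en) (1 / ((j : ℝ) + 1))
        (by positivity)
      filter_upwards [hktend.eventually (eventually_ge_atTop k₀)] with n hn
      obtain ⟨k', J, h1, h2, h3, h4⟩ := hk₀ (k n) hn (ψ n) lam (by linarith) hlam2
      exact ⟨k', J, fun _ => ⟨h1, h2, h3, fun i hi =>
        h4 _ (Finset.mem_image_of_mem _ (Finset.mem_range.mpr hi))⟩⟩)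
  choose k' J hZ using hjj2
  have hinv : Tendsto (fun n => 1 / ((jj n : ℝ) + 1)) atTop (𝓝 0) :=
    tendsto_one_div_add_atTop_nhds_zero_nat.comp hjj1
  have hx0 : ∀ n, (0 : ℝ) ≤ 1 / ((jj n : ℝ) + 1) := fun n => by positivity
  have hinvs : Tendsto (fun n => Real.sqrt (1 / ((jj n : ℝ) + 1))) atTop (𝓝 0) := by
    have h2 := (Real.continuous_sqrt.tendsto 0).comp hinv
    rw [Real.sqrt_zero] at h2
    exact h2
  -- compressions
  have hcomp : ∀ n g, ∃ φ : Matrix.unitaryGroup (Fin (k' n)) ℂ, (J n)ᴴ * J n = 1 →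
      fro ((ψ n g).1 * J n - J n * φ.1) ≤
        4 * ((((1 - J n * (J n)ᴴ) * (ψ n g).1 * J n).rank : ℕ) : ℝ) := by
    intro n g
    by_cases h : (J n)ᴴ * J n = 1
    · obtain ⟨φ, hφ⟩ := compressR (ψ n g) (J n) h _ le_rfl
      exact ⟨φ, fun _ => hφ⟩
    · exact ⟨1, fun h' => absurd h' h⟩
  choose φ hφ using hcomp
  have hgood : ∀ᶠ n in atTop, 0 < jj n ∧ 1 / ((jj n : ℝ) + 1) ≤ 1 / 4 :=
    (hjj1.eventually (eventually_gt_atTop 0)).and
      ((hinv.eventually (gt_mem_nhds (show (0 : ℝ) < 1 / 4 by norm_num))).mono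
        (fun n hn => le_of_lt hn))
  have hev : ∀ g : G, ∀ᶠ n in atTop, fn ((ψ n g).1 * J n - J n * (φ n g).1) ≤
      2 * Real.sqrt (1 / ((jj n : ℝ) + 1)) * Real.sqrt (k n) := by
    intro g
    obtain ⟨i, rfl⟩ := hen g
    filter_upwards [hjj1.eventually (eventually_gt_atTop i)] with n hn
    obtain ⟨z1, z2, z3, z4⟩ := hZ n (by omega)
    have h1 := hφ n (en i) z1
    have h2 := z4 i hn
    unfold fn
    rw [Real.sqrt_le_left (by positivity), mul_pow, mul_pow, Real.sq_sqrt (hx0 n),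
      Real.sq_sqrt (Nat.cast_nonneg _)]
    linarith
  have hquarter : ∀ n, 0 < jj n ∧ 1 / ((jj n : ℝ) + 1) ≤ 1 / 4 →
      Real.sqrt (k n) ≤ 2 * Real.sqrt (k' n) := by
    intro n hn
    have h1 := (abs_le.mp (hZ n hn.1).2.1).1
    have h2 := hn.2
    have h3 : (0 : ℝ) ≤ k n := Nat.cast_nonneg _
    rw [Real.sqrt_le_left (by positivity), mul_pow, Real.sq_sqrt (Nat.cast_nonneg _)]
    nlinarith
  have halm : ∀ a b : G, Tendsto (fun n => hsCls.d (k' n) (φ n a * φ n b) (φ n (a * b)))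
      atTop (𝓝 0) := by
    intro a b
    have hlim : Tendsto (fun n => 12 * Real.sqrt (1 / ((jj n : ℝ) + 1))) atTop (𝓝 0) := by
      have := hinvs.const_mul (12 : ℝ)
      rwa [mul_zero] at this
    refine squeeze_zero' (Eventually.of_forall fun n => hsCls_metric.nonneg _ _ _) ?_ hlim
    filter_upwards [hgood, hev a, hev b, hev (a * b)] with n g1 g2 g3 g4
    have hJ := (hZ n g1.1).1
    show hsDist ((φ n a).1 * (φ n b).1) (φ n (a * b)).1 ≤ _
    rw [hs_le_iff _ _ _ (by positivity), Fintype.card_fin]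
    have e1 : fn ((φ n a).1 * (φ n b).1 - (φ n (a * b)).1) =
        fn (J n * ((φ n a).1 * (φ n b).1 - (φ n (a * b)).1)) := by
      unfold fn; rw [fro_mul_left _ hJ]
    have e2 : J n * ((φ n a).1 * (φ n b).1 - (φ n (a * b)).1) =
        -(((ψ n a).1 * J n - J n * (φ n a).1) * (φ n b).1) +
        -((ψ n a).1 * ((ψ n b).1 * J n - J n * (φ n b).1)) +
        ((ψ n (a * b)).1 * J n - J n * (φ n (a * b)).1) := by
      rw [rep_mul]
      simp only [Matrix.mul_sub, Matrix.sub_mul, Matrix.mul_assoc]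
      abel
    have hneg : ∀ (M : Matrix (Fin (k n)) (Fin (k' n)) ℂ), fn (-M) = fn M := fun M => by
      unfold fn; rw [fro_neg]
    rw [e1, e2]
    refine (fn_add_le _ _).trans ?_
    have f1 := fn_add_le (-(((ψ n a).1 * J n - J n * (φ n a).1) * (φ n b).1))
      (-((ψ n a).1 * ((ψ n b).1 * J n - J n * (φ n b).1)))
    rw [hneg, hneg, fn_right, fn_left] at f1
    have f2 := hquarter n g1
    have f3 : 2 * Real.sqrt (1 / ((jj n : ℝ) + 1)) * Real.sqrt (k n) ≤
        2 * Real.sqrt (1 / ((jj n : ℝ) + 1)) * (2 * Real.sqrt (k' n)) := by gcongr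
    linarith
  obtain ⟨θ, hθ⟩ := hst k' (fun n g => φ n g) halm
  -- choose a good index
  set ε1 : ℝ := min (ε / 8) (η₁ / 16) with hε1
  have hε10 : 0 < ε1 := lt_min (by linarith) (by linarith)
  have hε1a : ε1 ≤ ε / 8 := min_le_left _ _
  have hε1b : ε1 ≤ η₁ / 16 := min_le_right _ _
  have hall : ∀ᶠ n in atTop, (0 < jj n ∧ 1 / ((jj n : ℝ) + 1) ≤ 1 / 4) ∧
      (∀ g ∈ F ∪ Finset.univ.image f, hsCls.d (k' n) (φ n g) (θ n g) ≤ ε1) ∧
      (∀ g ∈ F ∪ Finset.univ.image f, fn ((ψ n g).1 * J n - J n * (φ n g).1) ≤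
        2 * Real.sqrt (1 / ((jj n : ℝ) + 1)) * Real.sqrt (k n)) ∧
      Real.sqrt (1 / ((jj n : ℝ) + 1)) ≤ ε1 ∧ 1 / ((jj n : ℝ) + 1) ≤ η₁ / 4 := by
    refine hgood.and (((Filter.eventually_all_finset _).mpr fun g _ =>
      ((hθ g).eventually (gt_mem_nhds hε10)).mono fun n hn => le_of_lt hn).and
      (((Filter.eventually_all_finset _).mpr fun g _ => hev g).and
      (((hinvs.eventually (gt_mem_nhds hε10)).mono fun n hn => le_of_lt hn).and
      ((hinv.eventually (gt_mem_nhds (show (0 : ℝ) < η₁ / 4 by linarith))).mono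
        fun n hn => le_of_lt hn))))
  obtain ⟨n, g1, g2, g3, g4, g5⟩ := hall.exists
  obtain ⟨z1, z2, z3, -⟩ := hZ n g1.1
  have hk0 : (0 : ℝ) ≤ k n := Nat.cast_nonneg _
  let θ' : G →* Matrix.unitaryGroup (Fin (k' n)) ℂ := θ n
  have hz2 : |(k' n : ℝ) - lam * k n| ≤ η₁ / 4 * k n := z2.trans (by gcongr)
  obtain ⟨z2a, z2b⟩ := abs_le.mp hz2
  have hkk' : (k' n : ℝ) ≤ (1 - κ) * k n := by
    have : lam * (k n : ℝ) = (1 - κ) * k n - η₁ / 2 * k n := by rw [hlam]; ring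
    have h2 : 0 ≤ η₁ * (k n : ℝ) := by positivity
    linarith
  have hle : k' n ≤ k n := by
    have h2 : (k' n : ℝ) ≤ k n := by nlinarith
    exact_mod_cast h2
  have hclose : ∀ g ∈ F ∪ Finset.univ.image f, fn ((ψ n g).1 * J n - J n * (θ' g).1) ≤
      3 * ε1 * Real.sqrt (k n) := by
    intro g hg
    have e1 : (ψ n g).1 * J n - J n * (θ' g).1 =
        ((ψ n g).1 * J n - J n * (φ n g).1) + J n * ((φ n g).1 - (θ' g).1) := by
      rw [Matrix.mul_sub]; abel
    rw [e1]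
    refine (fn_add_le _ _).trans ?_
    have e2 : fn (J n * ((φ n g).1 - (θ' g).1)) = fn ((φ n g).1 - (θ' g).1) := by
      unfold fn; rw [fro_mul_left _ z1]
    rw [e2]
    have e3 : fn ((φ n g).1 - (θ' g).1) ≤ ε1 * Real.sqrt (Fintype.card (Fin (k' n))) :=
      fn_of_d (g2 g hg)
    rw [Fintype.card_fin] at e3
    have e4 := g3 g hg
    have e5 : Real.sqrt (k' n) ≤ Real.sqrt (k n) := Real.sqrt_le_sqrt (by exact_mod_cast hle)
    have e6 : 2 * Real.sqrt (1 / ((jj n : ℝ) + 1)) * Real.sqrt (k n) ≤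
        2 * ε1 * Real.sqrt (k n) := by gcongr
    have e7 : ε1 * Real.sqrt (k' n) ≤ ε1 * Real.sqrt (k n) := by gcongr
    linarith
  obtain ⟨V, hV1, hV2, hV3⟩ := complete (J n) z1 (Fin.castLE hle) (Fin.castLE_injective hle)
    (by rfl)
  let u : Matrix.unitaryGroup (Fin (k n)) ℂ := ⟨V, Matrix.mem_unitaryGroup_iff'.mpr hV1⟩
  obtain ⟨g, hg, hbadg⟩ := hbad n (k' n) hle θ' u hkk'
    (by
      rw [abs_le]
      have h1 : lam * (k n : ℝ) = (1 - κ) * k n - η₁ / 2 * k n := by rw [hlam]; ring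
      have h2 : 0 ≤ η₁ * (k n : ℝ) := by positivity
      have h3 : η₁ * (k n : ℝ) ≤ η * k n := by gcongr
      constructor <;> linarith)
    (by
      have hkey : ∀ h : H, ‖trace (θ' (f h)).1 - (1 - κ : ℝ) * trace (ψ n (f h)).1‖ ≤
          η * k n := by
        intro h
        have t1 := z3 h
        have t2 : ‖trace (θ' (f h)).1 - trace ((ψ n (f h)).1 * (J n * (J n)ᴴ))‖ ≤
            3 * ε1 * k n := by
          have s1 : trace (θ' (f h)).1 - trace ((ψ n (f h)).1 * (J n * (J n)ᴴ)) =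
              trace ((J n)ᴴ * (J n * (θ' (f h)).1 - (ψ n (f h)).1 * J n)) := by
            have a1 : trace ((J n)ᴴ * (J n * (θ' (f h)).1)) = trace (θ' (f h)).1 := by
              rw [← Matrix.mul_assoc, z1, Matrix.one_mul]
            have a2 : trace ((J n)ᴴ * ((ψ n (f h)).1 * J n)) =
                trace ((ψ n (f h)).1 * (J n * (J n)ᴴ)) := by
              rw [Matrix.trace_mul_comm, Matrix.mul_assoc]
            rw [Matrix.mul_sub, trace_sub, a1, a2]
          rw [s1]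
          have s2 := norm_trace_le ((J n)ᴴ * (J n * (θ' (f h)).1 - (ψ n (f h)).1 * J n))
          have s3 := fro_adj_le (J n) z1 (J n * (θ' (f h)).1 - (ψ n (f h)).1 * J n)
          have s4 := hclose (f h) (Finset.mem_union_right _
            (Finset.mem_image_of_mem _ (Finset.mem_univ h)))
          rw [fn_sub_comm] at s4
          have s5 : fro (J n * (θ' (f h)).1 - (ψ n (f h)).1 * J n) ≤ (3 * ε1) ^ 2 * k n := by
            rw [← fn_sq]
            calc _ ≤ (3 * ε1 * Real.sqrt (k n)) ^ 2 :=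
                  pow_le_pow_left₀ (fn_nonneg _) s4 2
              _ = (3 * ε1) ^ 2 * k n := by rw [mul_pow, Real.sq_sqrt hk0]
          rw [Fintype.card_fin] at s2
          refine (abs_le_of_sq_le_sq' (s2.trans ?_) (by positivity)).2
          have s6 : (k' n : ℝ) ≤ k n := by exact_mod_cast hle
          have s7 := fro_nonneg ((J n)ᴴ * (J n * (θ' (f h)).1 - (ψ n (f h)).1 * J n))
          calc (k' n : ℝ) * fro ((J n)ᴴ * (J n * (θ' (f h)).1 - (ψ n (f h)).1 * J n)) ≤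
                k n * ((3 * ε1) ^ 2 * k n) := by
                  apply mul_le_mul s6 (s3.trans s5) s7 hk0
            _ = (3 * ε1 * k n) ^ 2 := by ring
        have t3 := tr_unit (ψ n (f h))
        have t4 : trace (θ' (f h)).1 - (1 - κ : ℝ) * trace (ψ n (f h)).1 =
            (trace (θ' (f h)).1 - trace ((ψ n (f h)).1 * (J n * (J n)ᴴ))) +
            (trace ((ψ n (f h)).1 * (J n * (J n)ᴴ)) - lam * trace (ψ n (f h)).1) -
            ((η₁ / 2 : ℝ) : ℂ) * trace (ψ n (f h)).1 := by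
          rw [hlam]; push_cast; ring
        have t5 : ‖((η₁ / 2 : ℝ) : ℂ) * trace (ψ n (f h)).1‖ ≤ η₁ / 2 * k n := by
          rw [norm_mul, Complex.norm_real, Real.norm_of_nonneg (by linarith)]
          gcongr
        rw [t4]
        refine (norm_sub_le _ _).trans ?_
        have t6 := norm_add_le (trace (θ' (f h)).1 - trace ((ψ n (f h)).1 * (J n * (J n)ᴴ)))
          (trace ((ψ n (f h)).1 * (J n * (J n)ᴴ)) - lam * trace (ψ n (f h)).1)
        have t7 : 3 * ε1 * (k n : ℝ) ≤ 3 * (η₁ / 16) * k n := by gcongr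
        have t8 : 1 / ((jj n : ℝ) + 1) * (k n : ℝ) ≤ η₁ / 4 * k n := by gcongr
        have t9 : η₁ * (k n : ℝ) ≤ η * k n := by gcongr
        have t10 : 0 ≤ η₁ * (k n : ℝ) := by positivity
        linarith
      rintro ⟨h, b⟩
      have hk1 := hkey h
      cases b
      · show |(trace (θ' (f h)).1).im - (1 - κ) * (trace (ψ n (f h)).1).im| ≤ _
        have e1 : (trace (θ' (f h)).1).im - (1 - κ) * (trace (ψ n (f h)).1).im =
            (trace (θ' (f h)).1 - (1 - κ : ℝ) * trace (ψ n (f h)).1).im := by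
          rw [Complex.sub_im, Complex.im_ofReal_mul]
        rw [e1]
        exact (Complex.abs_im_le_norm _).trans hk1
      · show |(trace (θ' (f h)).1).re - (1 - κ) * (trace (ψ n (f h)).1).re| ≤ _
        have e1 : (trace (θ' (f h)).1).re - (1 - κ) * (trace (ψ n (f h)).1).re =
            (trace (θ' (f h)).1 - (1 - κ : ℝ) * trace (ψ n (f h)).1).re := by
          rw [Complex.sub_re, Complex.re_ofReal_mul]
        rw [e1]
        exact (Complex.abs_re_le_norm _).trans hk1)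
  refine absurd ?_ (not_le.mpr hbadg)
  show hsDist (V * exM (Jm (Fin.castLE hle)) (θ' g).1 * Vᴴ) (ψ n g).1 ≤ ε
  have hVJ : V * Jm (Fin.castLE hle) = J n := by rw [mul_Jm, hV3]
  have e1 : V * exM (Jm (Fin.castLE hle)) (θ' g).1 * Vᴴ =
      J n * (θ' g).1 * (J n)ᴴ + (1 - J n * (J n)ᴴ) := by
    unfold exM
    rw [← hVJ, conjTranspose_mul]
    simp only [Matrix.mul_add, Matrix.add_mul, Matrix.mul_sub, Matrix.sub_mul, Matrix.mul_one,
      Matrix.mul_assoc, hV2]
  rw [e1, hs_le_iff _ _ _ hε.le, Fintype.card_fin]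
  have e2 : J n * (θ' g).1 * (J n)ᴴ + (1 - J n * (J n)ᴴ) - (ψ n g).1 =
      -(((ψ n g).1 * J n - J n * (θ' g).1) * (J n)ᴴ) + ((1 - J n * (J n)ᴴ) +
        -((ψ n g).1 * (1 - J n * (J n)ᴴ))) := by
    simp only [Matrix.sub_mul, Matrix.mul_sub, Matrix.mul_one, Matrix.mul_assoc]
    abel
  rw [e2]
  refine (fn_add_le _ _).trans ?_
  have e3 := fn_add_le (1 - J n * (J n)ᴴ) (-((ψ n g).1 * (1 - J n * (J n)ᴴ)))
  have hneg : ∀ (M : Matrix (Fin (k n)) (Fin (k n)) ℂ), fn (-M) = fn M := fun M => by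
    unfold fn; rw [fro_neg]
  rw [hneg, fn_left] at e3
  rw [hneg]
  have e4 : fn (((ψ n g).1 * J n - J n * (θ' g).1) * (J n)ᴴ) =
      fn ((ψ n g).1 * J n - J n * (θ' g).1) := by
    unfold fn
    rw [fro_mul_right _ (by rw [conjTranspose_conjTranspose]; exact z1)]
  rw [e4]
  have e5 := hclose g (Finset.mem_union_left _ hg)
  have e6 : fn (1 - J n * (J n)ᴴ) ≤ ε / 4 * Real.sqrt (k n) := by
    unfold fn
    rw [fro_compl _ z1, Real.sqrt_le_left (by positivity), mul_pow, Real.sq_sqrt hk0]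
    have h1 : lam * (k n : ℝ) = (1 - κ) * k n - η₁ / 2 * k n := by rw [hlam]; ring
    have h2 : η₁ * (k n : ℝ) ≤ κ * k n := by gcongr
    have h3 : κ * (k n : ℝ) ≤ ε ^ 2 / 64 * k n := by gcongr
    have h4 : 0 ≤ ε ^ 2 * (k n : ℝ) := by positivity
    nlinarith
  have e7 : 3 * ε1 * Real.sqrt (k n) ≤ 3 * (ε / 8) * Real.sqrt (k n) := by gcongr
  have e8 : 0 ≤ ε * Real.sqrt (k n) := by positivity
  linarith

end Pool.Agent.H698R5
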